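import Pool.Agent.Lib.helper94.ANT.Mertens

set_option autoImplicit false

open Finset

namespace Pool.Agent.MP_f32cb9_nt

open Pool.Agent.Lib.helper94.ANT (mA mS mA_bounds mA_succ loglog_step)

theorem mS_sub_le {y x : ℕ} (hy : 2 ≤ y) (hyx : y ≤ x) :
    mS x - mS y ≤ Real.log (Real.log x / Real.log y) + 5 / Real.log y := by
  have hstep : ∀ n : ℕ, 2 ≤ n → mS (n + 1) - mA (n + 1) / Real.log ((n + 1 : ℕ) : ℝ) -
      (mS n - mA n / Real.log n) = mA n * (1 / Real.log n - 1 / Real.log ((n + 1 : ℕ) : ℝ)) := by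
    intro n hn
    have h1 : 0 < Real.log n := Real.log_pos (by exact_mod_cast hn)
    have h2 : 0 < Real.log ((n + 1 : ℕ) : ℝ) := Real.log_pos (by exact_mod_cast (by omega : 1 < n + 1))
    rw [mA_succ n]
    field_simp
    ring
  have hmono : ∀ n : ℕ, 2 ≤ n → 0 ≤ 1 / Real.log n - 1 / Real.log ((n + 1 : ℕ) : ℝ) := by
    intro n hn
    have h1 : 0 < Real.log n := Real.log_pos (by exact_mod_cast hn)
    have hlt : Real.log n ≤ Real.log ((n + 1 : ℕ) : ℝ) :=
      Real.log_le_log (by positivity) (by exact_mod_cast (Nat.lt_succ_self n).le)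
    rw [sub_nonneg]
    exact one_div_le_one_div_of_le h1 hlt
  have hup : mS x - mA x / Real.log x - Real.log (Real.log x) + 2 / Real.log x ≤
      mS y - mA y / Real.log y - Real.log (Real.log y) + 2 / Real.log y := by
    induction x, hyx using Nat.le_induction with
    | base => exact le_rfl
    | succ n hn ih =>
      have hn2 : 2 ≤ n := hy.trans hn
      have h1 := hstep n hn2
      have h2 := hmono n hn2
      have h3 := (loglog_step hn2).1
      have h4 := (mA_bounds (n := n) (by omega)).2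
      have h5 : 0 < Real.log n := Real.log_pos (by exact_mod_cast hn2)
      have h6 : mA n * (1 / Real.log n - 1 / Real.log ((n + 1 : ℕ) : ℝ)) ≤
          (Real.log n + 2) * (1 / Real.log n - 1 / Real.log ((n + 1 : ℕ) : ℝ)) :=
        mul_le_mul_of_nonneg_right h4 h2
      have h7 : (Real.log n + 2) * (1 / Real.log n - 1 / Real.log ((n + 1 : ℕ) : ℝ)) =
          1 - Real.log n / Real.log ((n + 1 : ℕ) : ℝ) +
            (2 / Real.log n - 2 / Real.log ((n + 1 : ℕ) : ℝ)) := by
        field_simp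
      linarith
  have hly : 0 < Real.log y := Real.log_pos (by exact_mod_cast hy)
  have hlx : 0 < Real.log x := Real.log_pos (by exact_mod_cast (by omega : 1 < x))
  have h5 : mA x / Real.log x ≤ 1 + 2 / Real.log x := by
    rw [div_le_iff₀ hlx]
    have : (1 + 2 / Real.log x) * Real.log x = Real.log x + 2 := by field_simp
    linarith [(mA_bounds (n := x) (by omega)).2]
  have h6 : 1 - 3 / Real.log y ≤ mA y / Real.log y := by
    rw [le_div_iff₀ hly]
    have : (1 - 3 / Real.log y) * Real.log y = Real.log y - 3 := by field_simp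
    linarith [(mA_bounds (n := y) (by omega)).1]
  rw [Real.log_div hlx.ne' hly.ne']
  have e : 5 / Real.log y = 3 / Real.log y + 2 / Real.log y := by ring
  rw [e]
  linarith

/-- primes in `(y, x]` -/
def PI (y x : ℕ) : Finset ℕ := (Nat.primesLE x).filter (fun p => y < p)

theorem mem_PI {y x p : ℕ} : p ∈ PI y x ↔ y < p ∧ p ≤ x ∧ p.Prime := by
  unfold PI
  rw [Finset.mem_filter, Nat.mem_primesLE]
  tauto

theorem sum_PI {y x : ℕ} (hyx : y ≤ x) (f : ℕ → ℝ) :
    ∑ p ∈ PI y x, f p = ∑ p ∈ Nat.primesLE x, f p - ∑ p ∈ Nat.primesLE y, f p := by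
  have h : Nat.primesLE y = (Nat.primesLE x).filter (fun p => ¬ y < p) := by
    ext p
    rw [Finset.mem_filter, Nat.mem_primesLE, Nat.mem_primesLE]
    constructor
    · rintro ⟨h1, h2⟩; exact ⟨⟨h1.trans hyx, h2⟩, by omega⟩
    · rintro ⟨⟨h1, h2⟩, h3⟩; exact ⟨by omega, h2⟩
  rw [h, PI]
  have := Finset.sum_filter_add_sum_filter_not (Nat.primesLE x) (fun p => y < p) f
  linarith

theorem sum_inv_PI {y x : ℕ} (hy : 2 ≤ y) (hyx : y ≤ x) :
    ∑ p ∈ PI y x, (1 : ℝ) / p ≤ Real.log (Real.log x / Real.log y) + 5 / Real.log y := by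
  rw [sum_PI hyx]
  exact mS_sub_le hy hyx

/-- dyadic version -/
theorem sum_inv_PI_two {s t : ℕ} (hs : 1 ≤ s) (hst : s ≤ t) :
    ∑ p ∈ PI (2 ^ s) (2 ^ t), (1 : ℝ) / p ≤ Real.log (t / s) + 8 / s := by
  have h := sum_inv_PI (y := 2 ^ s) (x := 2 ^ t) (by
    calc 2 = 2 ^ 1 := rfl
      _ ≤ 2 ^ s := Nat.pow_le_pow_right (by norm_num) hs) (Nat.pow_le_pow_right (by norm_num) hst)
  push_cast at h
  rw [Real.log_pow, Real.log_pow] at h
  have hl : 0 < Real.log 2 := Real.log_pos (by norm_num)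
  have hs0 : (0 : ℝ) < s := by exact_mod_cast hs
  have e : (t : ℝ) * Real.log 2 / (s * Real.log 2) = t / s := by
    field_simp
  rw [e] at h
  have h2 : 5 / ((s : ℝ) * Real.log 2) ≤ 8 / s := by
    rw [div_le_div_iff₀ (by positivity) hs0]
    have := Real.log_two_gt_d9
    nlinarith
  linarith

end Pool.Agent.MP_f32cb9_nt
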