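import Pool.Agent.MP_f32cb9_nt.Dens
import Pool.Agent.MP_f32cb9_nt.Mert

set_option autoImplicit false

open Finset

namespace Pool.Agent.MP_f32cb9_nt

/-- exponents of the sieving limits -/
noncomputable def ee (a : ℝ) (E i : ℕ) : ℕ := ⌊(E : ℝ) / ((i : ℝ) + 1) ^ a⌋₊ + 1

theorem ee_anti {a : ℝ} (ha : 0 ≤ a) (E : ℕ) : Antitone (ee a E) := by
  intro i j hij
  unfold ee
  have hij' : (i : ℝ) ≤ j := by exact_mod_cast hij
  have h : (E : ℝ) / ((j : ℝ) + 1) ^ a ≤ (E : ℝ) / ((i : ℝ) + 1) ^ a := by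
    apply div_le_div_of_nonneg_left (by positivity) (by positivity)
    exact Real.rpow_le_rpow (by positivity) (by linarith) ha
  have := Nat.floor_le_floor h
  omega

theorem ee_ge (a : ℝ) (E i : ℕ) : (E : ℝ) / ((i : ℝ) + 1) ^ a ≤ ee a E i := by
  unfold ee
  have := Nat.lt_floor_add_one ((E : ℝ) / ((i : ℝ) + 1) ^ a)
  push_cast
  linarith

theorem ee_le (a : ℝ) (E i : ℕ) : (ee a E i : ℝ) ≤ (E : ℝ) / ((i : ℝ) + 1) ^ a + 1 := by
  unfold ee
  have := Nat.floor_le (a := (E : ℝ) / ((i : ℝ) + 1) ^ a) (by positivity)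
  push_cast
  linarith

theorem one_le_ee (a : ℝ) (E i : ℕ) : 1 ≤ ee a E i := by unfold ee; omega

/-- blocks of primes -/
noncomputable def BB (a : ℝ) (E g i : ℕ) : Finset ℕ := PI (2 ^ max (ee a E (i + 1)) g) (2 ^ ee a E i)

theorem mem_BB {a : ℝ} {E g i p : ℕ} :
    p ∈ BB a E g i ↔ 2 ^ ee a E (i + 1) < p ∧ 2 ^ g < p ∧ p ≤ 2 ^ ee a E i ∧ p.Prime := by
  unfold BB
  rw [mem_PI]
  have h : 2 ^ max (ee a E (i + 1)) g = max (2 ^ ee a E (i + 1)) (2 ^ g) := by
    rcases le_total (ee a E (i + 1)) g with h | h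
    · rw [max_eq_right h, max_eq_right (Nat.pow_le_pow_right (by norm_num) h)]
    · rw [max_eq_left h, max_eq_left (Nat.pow_le_pow_right (by norm_num) h)]
  rw [h, max_lt_iff]
  tauto

theorem BB_disj {a : ℝ} (ha : 0 ≤ a) {E g i j : ℕ} (hij : i ≠ j) :
    Disjoint (BB a E g i) (BB a E g j) := by
  rw [Finset.disjoint_left]
  intro p hp hq
  rw [mem_BB] at hp hq
  rcases lt_or_gt_of_ne hij with h | h
  · have := Nat.pow_le_pow_right (n := 2) (by norm_num) (ee_anti ha E (Nat.succ_le_of_lt h))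
    have := hp.1
    have := hq.2.2.1
    simp only [Nat.succ_eq_add_one] at *
    omega
  · have := Nat.pow_le_pow_right (n := 2) (by norm_num) (ee_anti ha E (Nat.succ_le_of_lt h))
    have := hq.1
    have := hp.2.2.1
    simp only [Nat.succ_eq_add_one] at *
    omega

theorem BB_cover {a : ℝ} {E g m p i₀ : ℕ} (hm : ee a E m ≤ g) (hp : p.Prime)
    (hgp : 2 ^ g < p) (hp0 : p ≤ 2 ^ ee a E i₀) (ha : 0 ≤ a) : ∃ i < m, p ∈ BB a E g i := by
  classical
  have hex : ∃ n, ¬ p ≤ 2 ^ ee a E n := by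
    refine ⟨m, ?_⟩
    have := Nat.pow_le_pow_right (n := 2) (by norm_num) hm
    omega
  have h0 : p ≤ 2 ^ ee a E 0 :=
    hp0.trans (Nat.pow_le_pow_right (by norm_num) (ee_anti ha E (Nat.zero_le _)))
  have hn1 : ¬ p ≤ 2 ^ ee a E (Nat.find hex) := Nat.find_spec hex
  have hn0 : Nat.find hex ≠ 0 := by
    intro h; rw [h] at hn1; exact hn1 h0
  obtain ⟨i, hin⟩ : ∃ i, Nat.find hex = i + 1 := ⟨Nat.find hex - 1, by omega⟩
  rw [hin] at hn1
  have hi : p ≤ 2 ^ ee a E i := by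
    by_contra h
    have := Nat.find_min' hex h
    omega
  refine ⟨i, ?_, mem_BB.2 ⟨by omega, hgp, hi, hp⟩⟩
  have : Nat.find hex ≤ m := by
    apply Nat.find_min' hex
    have := Nat.pow_le_pow_right (n := 2) (by norm_num) hm
    omega
  omega

/-- excluded residues -/
noncomputable def RR (a : ℝ) (E k M p : ℕ) : Finset ℕ :=
  (range p).filter (fun r => ∃ j ∈ Ico 1 k, p ≤ 2 ^ ee a E (j - 1) ∧ M * r ≡ j [MOD p])

theorem RR_subset (a : ℝ) (E k M p : ℕ) : RR a E k M p ⊆ range p := Finset.filter_subset _ _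

theorem mod_mem_RR {a : ℝ} {E k M p t : ℕ} (hp : 0 < p) :
    t % p ∈ RR a E k M p ↔ ∃ j ∈ Ico 1 k, p ≤ 2 ^ ee a E (j - 1) ∧ M * t ≡ j [MOD p] := by
  unfold RR
  rw [Finset.mem_filter, mem_range]
  have h : M * (t % p) ≡ M * t [MOD p] := Nat.ModEq.mul_left M (Nat.mod_modEq t p)
  constructor
  · rintro ⟨_, j, h1, h2, h3⟩
    exact ⟨j, h1, h2, h.symm.trans h3⟩
  · rintro ⟨j, h1, h2, h3⟩
    exact ⟨Nat.mod_lt _ hp, j, h1, h2, h.trans h3⟩

theorem RR_card {a : ℝ} (ha : 0 ≤ a) {E g k M i p : ℕ} (hp : p ∈ BB a E g i) (hM : ¬ p ∣ M) :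
    (RR a E k M p).card ≤ min (i + 1) k := by
  classical
  rw [mem_BB] at hp
  obtain ⟨hp1, hp2, hp3, hpp⟩ := hp
  have hcop : Nat.Coprime p M := (Nat.Prime.coprime_iff_not_dvd hpp).2 hM
  have hmap : ∀ r ∈ RR a E k M p, ∃ j, (j ∈ Ico 1 k ∧ p ≤ 2 ^ ee a E (j - 1)) ∧ M * r ≡ j [MOD p] := by
    intro r hr
    unfold RR at hr
    obtain ⟨_, j, h1, h2, h3⟩ := Finset.mem_filter.1 hr
    exact ⟨j, ⟨h1, h2⟩, h3⟩
  choose! f hf using hmap
  have hle : (RR a E k M p).card ≤ (Ico 1 (min (i + 2) k)).card := by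
    apply Finset.card_le_card_of_injOn f
    · intro r hr
      obtain ⟨⟨h1, h2⟩, _⟩ := hf r hr
      rw [mem_Ico] at h1
      rw [Finset.mem_coe, mem_Ico]
      refine ⟨h1.1, lt_min ?_ h1.2⟩
      by_contra hcon
      have h4 : i + 1 ≤ f r - 1 := by omega
      have := Nat.pow_le_pow_right (n := 2) (by norm_num) (ee_anti ha E h4)
      omega
    · intro r hr r' hr' hrr
      have h1 := (hf r hr).2
      have h2 := (hf r' hr').2
      rw [← hrr] at h2
      have h3 : M * r ≡ M * r' [MOD p] := h1.trans h2.symm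
      have h4 : r ≡ r' [MOD p] := Nat.ModEq.cancel_left_of_coprime hcop h3
      have e1 : r < p := mem_range.1 (RR_subset _ _ _ _ _ hr)
      have e2 : r' < p := mem_range.1 (RR_subset _ _ _ _ _ hr')
      unfold Nat.ModEq at h4
      rwa [Nat.mod_eq_of_lt e1, Nat.mod_eq_of_lt e2] at h4
  rw [Nat.card_Ico] at hle
  omega

theorem log_ratio {a : ℝ} (ha : 0 ≤ a) (ha2 : a ≤ 2) {E g i : ℕ} (hg : 1 ≤ g) :
    Real.log ((ee a E i : ℝ) / (max (ee a E (i + 1)) g : ℕ)) ≤ 2 / ((i : ℝ) + 1) + 1 / g := by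
  set s := max (ee a E (i + 1)) g with hs
  have hg0 : (0 : ℝ) < g := by exact_mod_cast hg
  have hsg : (g : ℝ) ≤ s := by exact_mod_cast le_max_right _ _
  have hs0 : (0 : ℝ) < s := lt_of_lt_of_le hg0 hsg
  have hse : (ee a E (i + 1) : ℝ) ≤ s := by exact_mod_cast le_max_left _ _
  have hi0 : (0 : ℝ) < (i : ℝ) + 1 := by positivity
  set x : ℝ := (((i : ℝ) + 2) / ((i : ℝ) + 1)) with hx
  have hx1 : 1 ≤ x := by rw [hx, le_div_iff₀ hi0]; linarith
  have hxa : 1 ≤ x ^ a := Real.one_le_rpow hx1 ha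
  have h1 : (E : ℝ) / ((i : ℝ) + 1) ^ a = (E : ℝ) / ((i : ℝ) + 2) ^ a * x ^ a := by
    rw [hx, Real.div_rpow (by positivity) (by positivity)]
    field_simp
  have h2 : (E : ℝ) / ((i : ℝ) + 2) ^ a ≤ s := by
    have := ee_ge a E (i + 1)
    push_cast at this
    have e : (i : ℝ) + 1 + 1 = i + 2 := by ring
    rw [e] at this
    linarith
  have h3 : (ee a E i : ℝ) ≤ s * x ^ a + 1 := by
    have := ee_le a E i
    rw [h1] at this
    have := mul_le_mul_of_nonneg_right h2 (zero_le_one.trans hxa)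
    linarith
  have h4 : (ee a E i : ℝ) / s ≤ x ^ a * (1 + 1 / g) := by
    rw [div_le_iff₀ hs0]
    have h5 : 1 ≤ s * (1 / g : ℝ) := by
      rw [mul_one_div, le_div_iff₀ hg0]; linarith
    nlinarith [mul_le_mul_of_nonneg_left hxa (by positivity : (0 : ℝ) ≤ s * (1 / g : ℝ))]
  have he0 : (0 : ℝ) < (ee a E i : ℝ) / s := by
    have : (1 : ℝ) ≤ ee a E i := by exact_mod_cast one_le_ee a E i
    positivity
  have h5 := Real.log_le_log he0 h4
  have h6 : Real.log (x ^ a * (1 + 1 / g)) = a * Real.log x + Real.log (1 + 1 / g) := by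
    rw [Real.log_mul (by positivity) (by positivity), Real.log_rpow (by linarith)]
  have h7 : Real.log x ≤ 1 / ((i : ℝ) + 1) := by
    have := Real.log_le_sub_one_of_pos (x := x) (by linarith)
    have e : x - 1 = 1 / ((i : ℝ) + 1) := by rw [hx]; field_simp; ring
    linarith
  have h8 : Real.log (1 + 1 / (g : ℝ)) ≤ 1 / g := by
    have := Real.log_le_sub_one_of_pos (x := 1 + 1 / (g : ℝ)) (by positivity)
    linarith
  have h9 : a * Real.log x ≤ 2 * (1 / ((i : ℝ) + 1)) :=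
    mul_le_mul ha2 h7 (Real.log_nonneg hx1) (by norm_num)
  have e : 2 / ((i : ℝ) + 1) = 2 * (1 / ((i : ℝ) + 1)) := by ring
  rw [e]
  linarith

/-- the standing assumptions on the parameters -/
structure Par (a : ℝ) (g k M : ℕ) : Prop where
  a1 : 1 < a
  a2 : a ≤ 2
  k1 : 1 ≤ k
  g9 : 9 * k ≤ g
  M0 : ∀ p : ℕ, p.Prime → 2 ^ g < p → ¬ p ∣ M

theorem Par.kg {a : ℝ} {g k M : ℕ} (h : Par a g k M) : 2 * k + 1 ≤ 2 ^ g := by
  have h1 := h.g9
  have h2 := h.k1
  have h3 : g < 2 ^ g := Nat.lt_two_pow_self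
  omega

theorem dens_bounds {a : ℝ} {E g k M i p : ℕ} (h : Par a g k M) (hp : p ∈ BB a E g i) :
    0 ≤ dens (RR a E k M) p ∧ dens (RR a E k M) p ≤ 1 / 2 := by
  have hp' := mem_BB.1 hp
  have hc := RR_card (k := k) (M := M) (by linarith [h.a1]) hp (h.M0 p hp'.2.2.2 hp'.2.1)
  have hkg := h.kg
  have hp0 : (0 : ℝ) < p := by exact_mod_cast hp'.2.2.2.pos
  unfold dens
  refine ⟨by positivity, ?_⟩
  rw [div_le_div_iff₀ hp0 (by norm_num)]
  have h1 : (RR a E k M p).card * 2 ≤ 1 * p := by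
    have := le_min_iff.1 hc
    omega
  exact_mod_cast h1

theorem kappa_le {a : ℝ} {E g k M : ℕ} (h : Par a g k M) (i : ℕ) :
    ∑ p ∈ BB a E g i, dens (RR a E k M) p ≤ 3 := by
  have hg1 : 1 ≤ g := by have := h.g9; have := h.k1; omega
  have hg0 : (0 : ℝ) < g := by exact_mod_cast hg1
  by_cases hlt : max (ee a E (i + 1)) g < ee a E i
  · have h1 : ∀ p ∈ BB a E g i, dens (RR a E k M) p ≤ (min (i + 1) k : ℕ) * (1 / p : ℝ) := by
      intro p hp
      have hp' := mem_BB.1 hp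
      have hc := RR_card (k := k) (M := M) (by linarith [h.a1]) hp (h.M0 p hp'.2.2.2 hp'.2.1)
      unfold dens
      rw [mul_one_div]
      gcongr
    refine (Finset.sum_le_sum h1).trans ?_
    rw [← Finset.mul_sum]
    have h2 : ∑ p ∈ BB a E g i, (1 / p : ℝ) ≤ 2 / ((i : ℝ) + 1) + 9 / g := by
      have h3 := sum_inv_PI_two (s := max (ee a E (i + 1)) g) (t := ee a E i)
        (hg1.trans (le_max_right _ _)) hlt.le
      have h4 := log_ratio (E := E) (g := g) (i := i) (by linarith [h.a1]) h.a2 hg1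
      have h5 : (8 : ℝ) / (max (ee a E (i + 1)) g : ℕ) ≤ 8 / g := by
        apply div_le_div_of_nonneg_left (by norm_num) hg0
        exact_mod_cast le_max_right _ _
      have e : (9 : ℝ) / g = 1 / g + 8 / g := by ring
      unfold BB
      rw [e]
      linarith
    have hmin : (0 : ℝ) ≤ (min (i + 1) k : ℕ) := Nat.cast_nonneg _
    refine (mul_le_mul_of_nonneg_left h2 hmin).trans ?_
    have h6 : ((min (i + 1) k : ℕ) : ℝ) ≤ (i : ℝ) + 1 := by exact_mod_cast min_le_left _ _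
    have h7 : ((min (i + 1) k : ℕ) : ℝ) ≤ k := by exact_mod_cast min_le_right _ _
    have h8 : ((min (i + 1) k : ℕ) : ℝ) * (2 / ((i : ℝ) + 1)) ≤ 2 := by
      have : (0 : ℝ) < (i : ℝ) + 1 := by positivity
      rw [mul_div_assoc', div_le_iff₀ this]
      linarith
    have h9 : ((min (i + 1) k : ℕ) : ℝ) * (9 / g) ≤ 1 := by
      rw [mul_div_assoc', div_le_iff₀ hg0]
      have : (9 : ℝ) * k ≤ g := by exact_mod_cast h.g9
      linarith
    rw [mul_add]
    linarith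
  · have : BB a E g i = ∅ := by
      apply Finset.eq_empty_of_forall_notMem
      intro p hp
      unfold BB at hp
      rw [mem_PI] at hp
      have := Nat.pow_le_pow_right (n := 2) (by norm_num) (not_lt.1 hlt)
      omega
    rw [this]
    norm_num

theorem one_sub_ge_exp {x : ℝ} (h0 : 0 ≤ x) (h1 : x ≤ 1 / 2) : Real.exp (-(2 * x)) ≤ 1 - x := by
  have h2 : Real.exp (-(2 * x)) = (Real.exp (2 * x))⁻¹ := Real.exp_neg _
  have h3 : 1 + 2 * x + (2 * x) ^ 2 / 2 ≤ Real.exp (2 * x) := Real.quadratic_le_exp_of_nonneg (by linarith)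
  rw [h2, inv_le_comm₀ (Real.exp_pos _) (by linarith)]
  refine le_trans ?_ h3
  rw [inv_le_iff_one_le_mul₀ (by linarith)]
  nlinarith [mul_nonneg h0 h0, mul_nonneg (mul_nonneg h0 h0) (by linarith : (0 : ℝ) ≤ 1 / 2 - x)]

theorem Vb_ge {a : ℝ} {E g k M : ℕ} (h : Par a g k M) (i : ℕ) :
    Real.exp (-6) ≤ Vb (RR a E k M) (BB a E g) i := by
  unfold Vb
  have h1 : ∏ p ∈ BB a E g i, Real.exp (-(2 * dens (RR a E k M) p)) ≤
      ∏ p ∈ BB a E g i, (1 - dens (RR a E k M) p) := by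
    apply Finset.prod_le_prod
    · intro p _; positivity
    · intro p hp
      obtain ⟨h2, h3⟩ := dens_bounds h hp
      exact one_sub_ge_exp h2 h3
  refine le_trans ?_ h1
  rw [← Real.exp_sum]
  apply Real.exp_le_exp.2
  rw [Finset.sum_neg_distrib, ← Finset.mul_sum]
  linarith [kappa_le (E := E) h i]

end Pool.Agent.MP_f32cb9_nt
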