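import Pool.Agent.MP_f32cb9_nt.Sift

set_option autoImplicit false

open Finset

namespace Pool.Agent.MP_f32cb9_nt

/-- the modulus -/
def MM (g : ℕ) : ℕ := ((2 ^ g).factorial) ^ 2

theorem MM_pos (g : ℕ) : 0 < MM g := by unfold MM; positivity

/-- the linear forms: `MM g * t - j = j * LL g j t` -/
def LL (g j t : ℕ) : ℕ := MM g / j * t - 1

theorem MM_prime {g p : ℕ} (hp : p.Prime) (hg : 2 ^ g < p) : ¬ p ∣ MM g := by
  intro h
  unfold MM at h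
  have h1 := hp.dvd_of_dvd_pow h
  rw [hp.dvd_factorial] at h1
  omega

theorem par_mk {a : ℝ} {g k : ℕ} (h1 : 1 < a) (h2 : a ≤ 2) (hk : 1 ≤ k) (hg : 9 * k ≤ g) :
    Par a g k (MM g) := ⟨h1, h2, hk, hg, fun _ hp h => MM_prime hp h⟩

theorem j_le {g k j : ℕ} (hg : 9 * k ≤ g) (hj : j ∈ Ico 1 k) : 1 ≤ j ∧ j ≤ 2 ^ g := by
  rw [mem_Ico] at hj
  have h3 : g < 2 ^ g := Nat.lt_two_pow_self
  omega

theorem MM_div {g j : ℕ} (h1 : 1 ≤ j) (h2 : j ≤ 2 ^ g) :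
    MM g / j = (2 ^ g).factorial * ((2 ^ g).factorial / j) := by
  unfold MM
  rw [pow_two]
  exact Nat.mul_div_assoc _ (Nat.dvd_factorial h1 h2)

theorem j_dvd_MM {g j : ℕ} (h1 : 1 ≤ j) (h2 : j ≤ 2 ^ g) : j ∣ MM g := by
  unfold MM
  rw [pow_two]
  exact (Nat.dvd_factorial h1 h2).mul_left _

theorem MM_div_pos {g j : ℕ} (h1 : 1 ≤ j) (h2 : j ≤ 2 ^ g) : 0 < MM g / j :=
  Nat.div_pos (Nat.le_of_dvd (MM_pos g) (j_dvd_MM h1 h2)) h1

theorem mul_LL {g j t : ℕ} (h1 : 1 ≤ j) (h2 : j ≤ 2 ^ g) (ht : 1 ≤ t) :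
    j * LL g j t + j = MM g * t := by
  unfold LL
  have h3 : 1 ≤ MM g / j * t := Nat.mul_pos (MM_div_pos h1 h2) ht
  obtain ⟨c, hc⟩ : ∃ c, MM g / j * t = c + 1 := ⟨MM g / j * t - 1, by omega⟩
  rw [hc]
  have h4 : MM g = j * (MM g / j) := (Nat.mul_div_cancel' (j_dvd_MM h1 h2)).symm
  calc j * (c + 1 - 1) + j = j * (c + 1) := by rw [Nat.add_sub_cancel]; ring
    _ = j * (MM g / j * t) := by rw [hc]
    _ = j * (MM g / j) * t := by ring
    _ = MM g * t := by rw [← h4]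

theorem sub_eq {g j t : ℕ} (h1 : 1 ≤ j) (h2 : j ≤ 2 ^ g) (ht : 1 ≤ t) :
    MM g * t - j = j * LL g j t := by
  have := mul_LL h1 h2 ht
  omega

theorem LL_succ {g j t : ℕ} (h1 : 1 ≤ j) (h2 : j ≤ 2 ^ g) (ht : 1 ≤ t) :
    LL g j t + 1 = MM g / j * t := by
  unfold LL
  have h3 : 1 ≤ MM g / j * t := Nat.mul_pos (MM_div_pos h1 h2) ht
  omega

/-- `t ≥ 2` makes the form positive -/
theorem LL_pos {g j t : ℕ} (h1 : 1 ≤ j) (h2 : j ≤ 2 ^ g) (ht : 2 ≤ t) : 1 ≤ LL g j t := by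
  have h3 := LL_succ h1 h2 (by omega : 1 ≤ t)
  have h4 := MM_div_pos h1 h2
  have : 1 * 2 ≤ MM g / j * t := Nat.mul_le_mul h4 ht
  omega

theorem prime_gt {g j t p : ℕ} (h1 : 1 ≤ j) (h2 : j ≤ 2 ^ g) (ht : 1 ≤ t) (hp : p.Prime)
    (hd : p ∣ LL g j t) : 2 ^ g < p := by
  by_contra hcon
  have h3 := LL_succ h1 h2 ht
  have h4 : p ∣ MM g / j * t := by
    rw [MM_div h1 h2]
    exact ((hp.dvd_factorial.2 (not_lt.1 hcon)).mul_right _).mul_right _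
  rw [← h3] at h4
  have h5 := (Nat.dvd_add_right hd).1 h4
  exact hp.one_lt.ne' (Nat.dvd_one.1 h5)

theorem coprime_LL {g j t : ℕ} (h1 : 1 ≤ j) (h2 : j ≤ 2 ^ g) (ht : 1 ≤ t) :
    Nat.Coprime j (LL g j t) := by
  rw [Nat.coprime_iff_gcd_eq_one]
  by_contra hcon
  obtain ⟨p, hp, hpd⟩ := Nat.exists_prime_and_dvd hcon
  have h3 := prime_gt h1 h2 ht hp (hpd.trans (Nat.gcd_dvd_right _ _))
  have h4 := Nat.le_of_dvd (by omega) (hpd.trans (Nat.gcd_dvd_left _ _))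
  omega

theorem coprime_div {g j t d : ℕ} (h1 : 1 ≤ j) (h2 : j ≤ 2 ^ g) (ht : 1 ≤ t)
    (hd : d ∣ LL g j t) : Nat.Coprime d (MM g / j) := by
  rw [Nat.coprime_iff_gcd_eq_one]
  by_contra hcon
  obtain ⟨p, hp, hpd⟩ := Nat.exists_prime_and_dvd hcon
  have h3 := LL_succ h1 h2 ht
  have h4 : p ∣ MM g / j * t := (hpd.trans (Nat.gcd_dvd_right _ _)).mul_right _
  have h5 : p ∣ LL g j t := (hpd.trans (Nat.gcd_dvd_left _ _)).trans hd
  rw [← h3] at h4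
  have h6 := (Nat.dvd_add_right h5).1 h4
  exact hp.one_lt.ne' (Nat.dvd_one.1 h6)

theorem LL_class {g j t s d : ℕ} (h1 : 1 ≤ j) (h2 : j ≤ 2 ^ g) (ht : 1 ≤ t) (hs : 1 ≤ s)
    (hd : d ∣ LL g j t) (hd' : d ∣ LL g j s) : t ≡ s [MOD d] := by
  have hc := coprime_div h1 h2 ht hd
  have e1 := LL_succ h1 h2 ht
  have e2 := LL_succ h1 h2 hs
  apply Nat.ModEq.cancel_left_of_coprime hc
  rw [← e1, ← e2]
  exact Nat.ModEq.add_right 1 (((Nat.modEq_zero_iff_dvd).2 hd).trans ((Nat.modEq_zero_iff_dvd).2 hd').symm)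

/-- the sifting function of this problem -/
noncomputable def ch (a : ℝ) (E g k t : ℕ) : ℝ :=
  chi (RR a E k (MM g)) (BB a E g) (mm a E) t

theorem ch_nonneg (a : ℝ) (E g k t : ℕ) : 0 ≤ ch a E g k t := chi_nonneg _ _ _ _

theorem ch_zero_or_one (a : ℝ) (E g k t : ℕ) : ch a E g k t = 0 ∨ ch a E g k t = 1 := by
  unfold ch chi
  by_cases h : ∃ i ∈ range (mm a E), ∃ p ∈ BB a E g i, t % p ∈ RR a E k (MM g) p
  · obtain ⟨i, hi, p, hp, hr⟩ := h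
    left
    apply Finset.prod_eq_zero hi
    apply Finset.prod_eq_zero hp
    unfold hit
    rw [if_pos hr, sub_self]
  · right
    push Not at h
    apply Finset.prod_eq_one
    intro i hi
    apply Finset.prod_eq_one
    intro p hp
    unfold hit
    rw [if_neg (h i hi p hp), sub_zero]

theorem ch_notMem {a : ℝ} {E g k t i p : ℕ} (h : ch a E g k t ≠ 0) (hi : i < mm a E)
    (hp : p ∈ BB a E g i) : t % p ∉ RR a E k (MM g) p := by
  intro hr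
  apply h
  unfold ch chi
  apply Finset.prod_eq_zero (mem_range.2 hi)
  apply Finset.prod_eq_zero hp
  unfold hit
  rw [if_pos hr, sub_self]

theorem rough_LL {a : ℝ} (ha : 1 < a) {E g k j t : ℕ} (hg : 9 * k ≤ g) (hj : j ∈ Ico 1 k)
    (ht : 1 ≤ t) (h : ch a E g k t ≠ 0) : Rough (2 ^ ee a E (j - 1)) (LL g j t) := by
  intro p hp hpd
  obtain ⟨h1, h2⟩ := j_le hg hj
  have h3 := prime_gt h1 h2 ht hp hpd
  by_contra hcon
  push Not at hcon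
  have hg2 : 2 ≤ g := by
    rw [mem_Ico] at hj
    omega
  obtain ⟨i, hi, hpi⟩ := BB_cover (m := mm a E) ((ee_mm ha E).trans hg2) hp h3 hcon (by linarith)
  apply ch_notMem h hi hpi
  rw [mod_mem_RR hp.pos]
  refine ⟨j, hj, hcon, ?_⟩
  have h4 := mul_LL h1 h2 ht
  have h5 : j * LL g j t + j ≡ 0 + j [MOD p] :=
    Nat.ModEq.add_right j ((Nat.modEq_zero_iff_dvd).2 (hpd.mul_left _))
  rwa [h4, zero_add] at h5

theorem Rough.dvd {z d m : ℕ} (h : Rough z m) (hd : d ∣ m) : Rough z d :=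
  fun p hp hpd => h p hp (hpd.trans hd)

theorem mem_ivl {N H t : ℕ} : t ∈ ivl N H ↔ N < t ∧ t ≤ N + H := by
  unfold ivl; rw [mem_Ioc]

/-- sifted elements with `d ∣ LL g j t` -/
theorem upper_dvd {a : ℝ} {E g k K : ℕ} (h : Par a g k (MM g)) (hb : Big a g k (MM g) K E) {j : ℕ}
    (hj : j ∈ Ico 1 k) {d : ℕ} (hd0 : 0 < d)
    (hdX : (d : ℝ) ≤ (2 : ℝ) ^ (4 * ((K * E : ℕ) : ℝ) / 5)) :
    ∑ t ∈ (ivl (XX K E) (XX K E)).filter (fun t => d ∣ LL g j t), ch a E g k t ≤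
      4 * (XX K E : ℝ) * V a E g k (MM g) / d := by
  classical
  have hV := V_pos (E := E) h
  have hrhs : 0 ≤ 4 * (XX K E : ℝ) * V a E g k (MM g) / d := by positivity
  obtain ⟨h1, h2⟩ := j_le h.g9 hj
  by_cases hex : ∃ t ∈ (ivl (XX K E) (XX K E)).filter (fun t => d ∣ LL g j t), ch a E g k t ≠ 0
  · obtain ⟨r, hr, hr0⟩ := hex
    obtain ⟨hr1, hr2⟩ := Finset.mem_filter.1 hr
    rw [mem_ivl] at hr1
    have hr3 : 1 ≤ r := by omega
    have hrough := (rough_LL h.a1 h.g9 hj hr3 hr0).dvd hr2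
    refine le_trans ?_ (upper h hb hj hd0 hrough hdX r)
    apply Finset.sum_le_sum_of_subset_of_nonneg
    · intro t ht
      obtain ⟨ht1, ht2⟩ := Finset.mem_filter.1 ht
      refine Finset.mem_filter.2 ⟨ht1, ?_⟩
      rw [mem_ivl] at ht1
      exact LL_class h1 h2 (by omega) hr3 ht2 hr2
    · intro t _ _
      exact chi_nonneg _ _ _ _
  · push Not at hex
    rw [Finset.sum_eq_zero hex]
    exact hrhs

end Pool.Agent.MP_f32cb9_nt
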