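import Pool.Agent.MP_f32cb9_nt.Blocks

set_option autoImplicit false

open Finset

namespace Pool.Agent.MP_f32cb9_nt

/-- truncation parameters -/
def bb (i : ℕ) : ℕ := 8 + Nat.log 2 (i + 1)

/-- relative errors -/
noncomputable def eps (i : ℕ) : ℝ := 1 / (8 * ((i : ℝ) + 1) ^ 2)

theorem eps_nonneg (i : ℕ) : 0 ≤ eps i := by unfold eps; positivity

theorem sum_eps (m : ℕ) : ∑ i ∈ range m, eps i ≤ 1 / 4 := by
  rcases Nat.eq_zero_or_pos m with rfl | hm
  · simp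
  have h : ∑ i ∈ range m, eps i ≤ 1 / 4 - 1 / (8 * (m : ℝ)) := by
    induction m, hm using Nat.le_induction with
    | base => norm_num [eps]
    | succ m hm ih =>
      rw [Finset.sum_range_succ]
      have hm0 : (1 : ℝ) ≤ m := by exact_mod_cast hm
      have h1 : eps m ≤ 1 / (8 * (m : ℝ)) - 1 / (8 * ((m : ℝ) + 1)) := by
        unfold eps
        rw [div_sub_div _ _ (by positivity) (by positivity),
          div_le_div_iff₀ (by positivity) (by positivity)]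
        nlinarith [mul_pos (by linarith : (0 : ℝ) < m) (by linarith : (0 : ℝ) < (m : ℝ) + 1)]
      push_cast
      linarith
  have hm0 : (0 : ℝ) < m := by exact_mod_cast hm
  have h2 : (0 : ℝ) ≤ 1 / (8 * (m : ℝ)) := by positivity
  linarith

theorem exp18 : Real.exp 18 * 128 ≤ 4 ^ 17 := by
  have h1 : Real.exp 1 < 2.7182818286 := Real.exp_one_lt_d9
  have h2 : Real.exp 18 = Real.exp 1 ^ 18 := by
    rw [← Real.exp_nat_mul]; norm_num
  rw [h2]
  have h3 : Real.exp 1 ^ 18 ≤ (2.7182818286 : ℝ) ^ 18 :=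
    pow_le_pow_left₀ (Real.exp_pos _).le h1.le 18
  refine (mul_le_mul_of_nonneg_right h3 (by norm_num)).trans ?_
  norm_num

theorem pow_log (i : ℕ) : ((i : ℝ) + 1) ^ 2 ≤ 16 * (4 : ℝ) ^ (2 * Nat.log 2 (i + 1)) := by
  set l := Nat.log 2 (i + 1) with hl
  have h1 : i + 1 < 2 ^ (l + 1) := Nat.lt_pow_succ_log_self (by norm_num) _
  have h2 : ((i : ℝ) + 1) ≤ 2 ^ (l + 1) := by exact_mod_cast h1.le
  have h0 : (1 : ℝ) ≤ (i : ℝ) + 1 := by linarith [(Nat.cast_nonneg i : (0 : ℝ) ≤ i)]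
  have e : (4 : ℝ) ^ (2 * l) = (2 ^ l) ^ 4 := by
    rw [show (4 : ℝ) = 2 ^ 2 by norm_num, ← pow_mul, ← pow_mul]; ring_nf
  rw [e]
  have h3 : ((i : ℝ) + 1) ^ 4 ≤ (2 ^ (l + 1)) ^ 4 := pow_le_pow_left₀ (by linarith) h2 4
  have h4 : ((i : ℝ) + 1) ^ 2 ≤ ((i : ℝ) + 1) ^ 4 := pow_le_pow_right₀ h0 (by norm_num)
  have e2 : ((2 : ℝ) ^ (l + 1)) ^ 4 = 16 * (2 ^ l) ^ 4 := by rw [pow_succ]; ring
  linarith

theorem esy_small {a : ℝ} {E g k M : ℕ} (h : Par a g k M) (i : ℕ) :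
    esy (dens (RR a E k M)) (2 * bb i + 1) (BB a E g i) ≤
      eps i * Vb (RR a E k M) (BB a E g) i := by
  have h1 := esy_le (dens (RR a E k M)) (2 * bb i + 1) (BB a E g i)
    (fun p hp => (dens_bounds h hp).1)
  have hk := kappa_le (E := E) h i
  have hs0 : 0 ≤ ∑ p ∈ BB a E g i, dens (RR a E k M) p :=
    Finset.sum_nonneg fun p hp => (dens_bounds h hp).1
  set n := 2 * bb i + 1 with hn
  have hf : (0 : ℝ) < n.factorial := by exact_mod_cast n.factorial_pos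
  have h2 : (∑ p ∈ BB a E g i, dens (RR a E k M) p) ^ n / n.factorial ≤ 3 ^ n / n.factorial :=
    div_le_div_of_nonneg_right (pow_le_pow_left₀ hs0 hk n) hf.le
  have h3 : (12 : ℝ) ^ n / n.factorial ≤ Real.exp 12 := Real.pow_div_factorial_le_exp 12 (by norm_num) n
  have h4 : (3 : ℝ) ^ n / n.factorial = 12 ^ n / n.factorial / 4 ^ n := by
    rw [show (12 : ℝ) = 3 * 4 by norm_num, mul_pow]
    field_simp
  have h5 : (3 : ℝ) ^ n / n.factorial ≤ Real.exp 12 / 4 ^ n := by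
    rw [h4]
    exact div_le_div_of_nonneg_right h3 (by positivity)
  refine (h1.trans (h2.trans h5)).trans ?_
  have h6 : (4 : ℝ) ^ n = 4 ^ 17 * 4 ^ (2 * Nat.log 2 (i + 1)) := by
    rw [← pow_add, hn, bb]; congr 1; ring
  have h7 := pow_log i
  have h8 : eps i * Real.exp (-6) ≤ eps i * Vb (RR a E k M) (BB a E g) i :=
    mul_le_mul_of_nonneg_left (Vb_ge h i) (eps_nonneg i)
  refine le_trans ?_ h8
  unfold eps
  have hi : (0 : ℝ) < (i : ℝ) + 1 := by positivity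
  rw [div_le_iff₀ (by positivity), h6]
  have h9 : Real.exp 12 = Real.exp 18 * Real.exp (-6) := by
    rw [← Real.exp_add]; norm_num
  rw [h9]
  have h10 : 0 < Real.exp (-6) := Real.exp_pos _
  have h11 : Real.exp 18 ≤ 1 / (8 * ((i : ℝ) + 1) ^ 2) * (4 ^ 17 * 4 ^ (2 * Nat.log 2 (i + 1))) := by
    rw [one_div_mul_eq_div, le_div_iff₀ (by positivity)]
    have e18 := exp18
    have hexp : 0 < Real.exp 18 := Real.exp_pos _
    calc Real.exp 18 * (8 * ((i : ℝ) + 1) ^ 2) ≤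
          Real.exp 18 * (8 * (16 * (4 : ℝ) ^ (2 * Nat.log 2 (i + 1)))) := by
          gcongr
      _ = (Real.exp 18 * 128) * 4 ^ (2 * Nat.log 2 (i + 1)) := by ring
      _ ≤ _ := by gcongr
  calc Real.exp 18 * Real.exp (-6) ≤
      (1 / (8 * ((i : ℝ) + 1) ^ 2) * (4 ^ 17 * 4 ^ (2 * Nat.log 2 (i + 1)))) * Real.exp (-6) :=
        mul_le_mul_of_nonneg_right h11 h10.le
    _ = _ := by ring

/-- the terms of the level sum -/
noncomputable def lev (a : ℝ) (i : ℕ) : ℝ := (17 + 2 * (Nat.log 2 (i + 1) : ℝ)) / ((i : ℝ) + 1) ^ a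

theorem lev_nonneg (a : ℝ) (i : ℕ) : 0 ≤ lev a i := by unfold lev; positivity

theorem summable_lev {a : ℝ} (ha : 1 < a) : Summable (lev a) := by
  set δ : ℝ := (a - 1) / 2 with hδ
  have hδ0 : 0 < δ := by rw [hδ]; linarith
  have hl2 : 0 < Real.log 2 := Real.log_pos (by norm_num)
  set C : ℝ := 17 + 2 / (δ * Real.log 2) with hC
  have hs : Summable (fun i : ℕ => C * (((i + 1 : ℕ) : ℝ) ^ ((a + 1) / 2))⁻¹) := by
    apply Summable.mul_left
    exact (summable_nat_add_iff 1).2 (Real.summable_nat_rpow_inv.2 (by linarith))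
  apply Summable.of_nonneg_of_le (lev_nonneg a) _ hs
  intro i
  unfold lev
  have hi : (1 : ℝ) ≤ (i : ℝ) + 1 := by linarith [(Nat.cast_nonneg i : (0 : ℝ) ≤ i)]
  have hi0 : (0 : ℝ) < (i : ℝ) + 1 := by linarith
  have h1 : (Nat.log 2 (i + 1) : ℝ) ≤ Real.log ((i : ℝ) + 1) / Real.log 2 := by
    rw [le_div_iff₀ hl2, ← Real.log_pow]
    apply Real.log_le_log (by positivity)
    exact_mod_cast Nat.pow_log_le_self 2 (by omega : i + 1 ≠ 0)
  have h2 : Real.log ((i : ℝ) + 1) ≤ ((i : ℝ) + 1) ^ δ / δ := Real.log_le_rpow_div hi0.le hδ0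
  have h3 : (Nat.log 2 (i + 1) : ℝ) ≤ ((i : ℝ) + 1) ^ δ / (δ * Real.log 2) := by
    refine h1.trans ?_
    rw [← div_div]
    exact div_le_div_of_nonneg_right h2 hl2.le
  have h4 : (1 : ℝ) ≤ ((i : ℝ) + 1) ^ δ := Real.one_le_rpow hi hδ0.le
  have h5 : 17 + 2 * (Nat.log 2 (i + 1) : ℝ) ≤ C * ((i : ℝ) + 1) ^ δ := by
    rw [hC, add_mul]
    have : 2 * (((i : ℝ) + 1) ^ δ / (δ * Real.log 2)) = 2 / (δ * Real.log 2) * ((i : ℝ) + 1) ^ δ := by
      ring
    nlinarith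
  have h6 : ((i : ℝ) + 1) ^ a = ((i : ℝ) + 1) ^ ((a + 1) / 2) * ((i : ℝ) + 1) ^ δ := by
    rw [← Real.rpow_add hi0]; congr 1; rw [hδ]; ring
  have h7 : (0 : ℝ) < ((i : ℝ) + 1) ^ δ := by positivity
  have h8 : (0 : ℝ) < ((i : ℝ) + 1) ^ ((a + 1) / 2) := by positivity
  rw [h6]
  push_cast
  calc (17 + 2 * (Nat.log 2 (i + 1) : ℝ)) / (((i : ℝ) + 1) ^ ((a + 1) / 2) * ((i : ℝ) + 1) ^ δ)
      ≤ (C * ((i : ℝ) + 1) ^ δ) / (((i : ℝ) + 1) ^ ((a + 1) / 2) * ((i : ℝ) + 1) ^ δ) :=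
        div_le_div_of_nonneg_right h5 (by positivity)
    _ = C * (((i : ℝ) + 1) ^ ((a + 1) / 2))⁻¹ := by
        field_simp

theorem block_level {a : ℝ} {E g k M : ℕ} (h : Par a g k M) (i : ℕ) :
    Wt (RR a E k M) (2 * bb i + 1) (BB a E g i) ≤ (2 : ℝ) ^ (4 * (E : ℝ) * lev a i) := by
  rcases (BB a E g i).eq_empty_or_nonempty with he | ⟨p, hp⟩
  · rw [he]
    have : Wt (RR a E k M) (2 * bb i + 1) ∅ = 1 := by simp [Wt]
    rw [this]
    exact Real.one_le_rpow (by norm_num) (by have := lev_nonneg a i; positivity)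
  · have hp' := mem_BB.1 hp
    have hkg := h.kg
    have hg1 : 1 ≤ g := by have := h.g9; have := h.k1; omega
    have hge : g < ee a E i := by
      by_contra hcon
      have := Nat.pow_le_pow_right (n := 2) (by norm_num) (not_lt.1 hcon)
      omega
    have hE : (ee a E i : ℝ) ≤ 2 * (E / ((i : ℝ) + 1) ^ a) := by
      have h1 : 1 ≤ ⌊(E : ℝ) / ((i : ℝ) + 1) ^ a⌋₊ := by unfold ee at hge; omega
      have h2 : (1 : ℝ) ≤ (E : ℝ) / ((i : ℝ) + 1) ^ a := by
        have := Nat.floor_le (a := (E : ℝ) / ((i : ℝ) + 1) ^ a) (by positivity)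
        have h3 : (1 : ℝ) ≤ (⌊(E : ℝ) / ((i : ℝ) + 1) ^ a⌋₊ : ℝ) := by exact_mod_cast h1
        linarith
      have := ee_le a E i
      linarith
    have hcard : ∑ p ∈ BB a E g i, ((RR a E k M p).card : ℝ) ≤ k * 2 ^ ee a E i := by
      have h1 : ∀ p ∈ BB a E g i, ((RR a E k M p).card : ℝ) ≤ k := by
        intro p hp
        have hp' := mem_BB.1 hp
        have hc := RR_card (k := k) (M := M) (by linarith [h.a1]) hp (h.M0 p hp'.2.2.2 hp'.2.1)
        exact_mod_cast hc.trans (min_le_right _ _)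
      refine (Finset.sum_le_sum h1).trans ?_
      rw [Finset.sum_const, nsmul_eq_mul, mul_comm]
      have h2 : (BB a E g i).card ≤ 2 ^ ee a E i := by
        have h3 : BB a E g i ⊆ Icc 1 (2 ^ ee a E i) := by
          intro q hq
          have := mem_BB.1 hq
          rw [mem_Icc]
          exact ⟨this.2.2.2.one_le, this.2.2.1⟩
        simpa using Finset.card_le_card h3
      have h4 : ((BB a E g i).card : ℝ) ≤ 2 ^ ee a E i := by exact_mod_cast h2
      exact mul_le_mul_of_nonneg_left h4 (Nat.cast_nonneg _)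
    have hb : (1 : ℝ) + ∑ p ∈ BB a E g i, ((RR a E k M p).card : ℝ) ≤ 2 ^ (2 * ee a E i) := by
      have h1 : (k : ℝ) + 1 ≤ 2 ^ ee a E i := by
        have h2 : 2 ^ g ≤ 2 ^ ee a E i := Nat.pow_le_pow_right (by norm_num) hge.le
        have h3 : k + 1 ≤ 2 ^ ee a E i := by omega
        exact_mod_cast h3
      have h0 : (1 : ℝ) ≤ 2 ^ ee a E i := one_le_pow₀ (by norm_num)
      have e : (2 : ℝ) ^ (2 * ee a E i) = 2 ^ ee a E i * 2 ^ ee a E i := by rw [two_mul, pow_add]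
      rw [e]
      nlinarith
    have h0 : (0 : ℝ) ≤ 1 + ∑ p ∈ BB a E g i, ((RR a E k M p).card : ℝ) := by positivity
    calc Wt (RR a E k M) (2 * bb i + 1) (BB a E g i)
        ≤ (1 + ∑ p ∈ BB a E g i, ((RR a E k M p).card : ℝ)) ^ (2 * bb i + 1) := Wt_le _ _ _
      _ ≤ (2 ^ (2 * ee a E i)) ^ (2 * bb i + 1) := pow_le_pow_left₀ h0 hb _
      _ = (2 : ℝ) ^ ((2 * ee a E i * (2 * bb i + 1) : ℕ) : ℝ) := by
          rw [Real.rpow_natCast, ← pow_mul]
      _ ≤ _ := by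
          apply Real.rpow_le_rpow_of_exponent_le (by norm_num)
          push_cast
          unfold lev bb
          push_cast
          have h2 : (0 : ℝ) ≤ (Nat.log 2 (i + 1) : ℝ) := Nat.cast_nonneg _
          have h3 : 2 * (ee a E i : ℝ) * (2 * (8 + (Nat.log 2 (i + 1) : ℝ)) + 1) ≤
              2 * (2 * (E / ((i : ℝ) + 1) ^ a)) * (2 * (8 + (Nat.log 2 (i + 1) : ℝ)) + 1) := by
            gcongr
          refine h3.trans (le_of_eq ?_)
          ring

theorem WW_le {a : ℝ} {E g k M : ℕ} (h : Par a g k M) (m : ℕ) :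
    WW (RR a E k M) (BB a E g) bb m ≤ (2 : ℝ) ^ (4 * (E : ℝ) * ∑' i, lev a i) := by
  unfold WW
  calc ∏ i ∈ range m, Wt (RR a E k M) (2 * bb i + 1) (BB a E g i)
      ≤ ∏ i ∈ range m, (2 : ℝ) ^ (4 * (E : ℝ) * lev a i) :=
        Finset.prod_le_prod (fun i _ => Wt_nonneg _ _ _) fun i _ => block_level h i
    _ = (2 : ℝ) ^ (∑ i ∈ range m, 4 * (E : ℝ) * lev a i) := by
        rw [Real.rpow_sum_of_pos (by norm_num)]
    _ ≤ _ := by
        apply Real.rpow_le_rpow_of_exponent_le (by norm_num)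
        rw [← Finset.mul_sum]
        apply mul_le_mul_of_nonneg_left _ (by positivity)
        exact (summable_lev h.a1).sum_le_tsum _ (fun i _ => lev_nonneg a i)

end Pool.Agent.MP_f32cb9_nt
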