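import Pool.Agent.MP_f32cb9_nt.Cond

set_option autoImplicit false

open Finset Filter

namespace Pool.Agent.MP_f32cb9_nt

/-- weighted sum of the moments -/
noncomputable def Phi (a η v : ℝ) (g k t : ℕ) : ℝ :=
  ∑ j ∈ Ico 1 k, (1 + v) ^ (LL g j t).primeFactors.card / (j : ℝ) ^ (a * v + 1 + η)

/-- the zeta value -/
noncomputable def ZZ (η : ℝ) : ℝ := ∑' n : ℕ, 1 / (n : ℝ) ^ (1 + η)

theorem sum_le_ZZ {η : ℝ} (hη : 0 < η) (s : Finset ℕ) :
    ∑ n ∈ s, 1 / (n : ℝ) ^ (1 + η) ≤ ZZ η := by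
  apply Summable.sum_le_tsum
  · intro n _; positivity
  · exact Real.summable_one_div_nat_rpow.2 (by linarith)

theorem Phi_nonneg {a η v : ℝ} (hv : 0 < v) (g k t : ℕ) : 0 ≤ Phi a η v g k t := by
  unfold Phi
  apply Finset.sum_nonneg
  intro j _
  positivity

/-- the constant -/
noncomputable def CC (η v : ℝ) (K : ℕ) : ℝ :=
  4 * Real.exp (8 * v) * (K : ℝ) ^ v * ZZ η / (1 - 4 / 3 * (v / (1 + v))) + 1

theorem Phi_sum {a η v : ℝ} (hη : 0 < η) (hv : 0 < v) (hρ : 4 / 3 * (v / (1 + v)) < 1)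
    {E g k K : ℕ} (h : Par a g k (MM g)) (hb : Big a g k (MM g) K E)
    (h2 : Big2 a g k K E) :
    ∑ t ∈ ivl (XX K E) (XX K E), ch a E g k t * Phi a η v g k t ≤
      CC η v K * ((XX K E : ℝ) * V a E g k (MM g)) := by
  set XV := (XX K E : ℝ) * V a E g k (MM g) with hXV
  have hX0 : (0 : ℝ) < XX K E := by unfold XX; positivity
  have hXV0 : 0 < XV := mul_pos hX0 (V_pos (E := E) h)
  have hρ' : 0 < 1 - 4 / 3 * (v / (1 + v)) := by linarith
  have e : ∑ t ∈ ivl (XX K E) (XX K E), ch a E g k t * Phi a η v g k t =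
      ∑ j ∈ Ico 1 k, (∑ t ∈ ivl (XX K E) (XX K E),
        ch a E g k t * (1 + v) ^ (LL g j t).primeFactors.card) / (j : ℝ) ^ (a * v + 1 + η) := by
    unfold Phi
    simp_rw [Finset.mul_sum, Finset.sum_div]
    rw [Finset.sum_comm]
    apply Finset.sum_congr rfl; intro j _
    apply Finset.sum_congr rfl; intro t _
    ring
  rw [e]
  have h3 : ∀ j ∈ Ico 1 k, (∑ t ∈ ivl (XX K E) (XX K E),
        ch a E g k t * (1 + v) ^ (LL g j t).primeFactors.card) / (j : ℝ) ^ (a * v + 1 + η) ≤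
      4 * Real.exp (8 * v) * (K : ℝ) ^ v / (1 - 4 / 3 * (v / (1 + v))) * XV * (1 / (j : ℝ) ^ (1 + η)) := by
    intro j hj
    have hj1 := (mem_Ico.1 hj).1
    have hj0 : (0 : ℝ) < j := by exact_mod_cast hj1
    have h4 := moment_bound h hb h2 hj v hv
    rw [← hXV] at h4
    have h5 : ∑ t ∈ ivl (XX K E) (XX K E), ch a E g k t * (1 + v) ^ (LL g j t).primeFactors.card ≤
        4 * Real.exp (8 * v) * (K : ℝ) ^ v * (j : ℝ) ^ (a * v) * XV / (1 - 4 / 3 * (v / (1 + v))) := by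
      rw [le_div_iff₀ hρ']
      linarith
    have hsplit : (j : ℝ) ^ (a * v + 1 + η) = (j : ℝ) ^ (a * v) * (j : ℝ) ^ (1 + η) := by
      rw [← Real.rpow_add hj0]; congr 1; ring
    have hja : 0 < (j : ℝ) ^ (a * v) := by positivity
    have hjb : 0 < (j : ℝ) ^ (1 + η) := by positivity
    rw [hsplit]
    calc (∑ t ∈ ivl (XX K E) (XX K E), ch a E g k t * (1 + v) ^ (LL g j t).primeFactors.card) /
          ((j : ℝ) ^ (a * v) * (j : ℝ) ^ (1 + η))
        ≤ (4 * Real.exp (8 * v) * (K : ℝ) ^ v * (j : ℝ) ^ (a * v) * XV / (1 - 4 / 3 * (v / (1 + v)))) /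
          ((j : ℝ) ^ (a * v) * (j : ℝ) ^ (1 + η)) := by gcongr
      _ = _ := by field_simp
  refine (Finset.sum_le_sum h3).trans ?_
  rw [← Finset.mul_sum]
  have h4 := sum_le_ZZ hη (Ico 1 k)
  have h5 : 0 ≤ 4 * Real.exp (8 * v) * (K : ℝ) ^ v / (1 - 4 / 3 * (v / (1 + v))) * XV := by positivity
  calc 4 * Real.exp (8 * v) * (K : ℝ) ^ v / (1 - 4 / 3 * (v / (1 + v))) * XV *
        ∑ n ∈ Ico 1 k, 1 / (n : ℝ) ^ (1 + η)
      ≤ 4 * Real.exp (8 * v) * (K : ℝ) ^ v / (1 - 4 / 3 * (v / (1 + v))) * XV * ZZ η := by gcongr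
    _ ≤ CC η v K * XV := by
      unfold CC
      have : 4 * Real.exp (8 * v) * (K : ℝ) ^ v * ZZ η / (1 - 4 / 3 * (v / (1 + v))) =
        4 * Real.exp (8 * v) * (K : ℝ) ^ v / (1 - 4 / 3 * (v / (1 + v))) * ZZ η := by ring
      rw [this]
      linarith

theorem ZZ_nonneg (η : ℝ) : 0 ≤ ZZ η := by
  unfold ZZ
  apply tsum_nonneg
  intro n; positivity

theorem CC_pos {η v : ℝ} (hv : 0 < v) (hρ : 4 / 3 * (v / (1 + v)) < 1) (K : ℕ) : 0 < CC η v K := by
  unfold CC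
  have := ZZ_nonneg η
  have hρ' : 0 < 1 - 4 / 3 * (v / (1 + v)) := by linarith
  positivity

theorem exists_t {a η : ℝ} (hη : 0 < η) (S : Finset ℝ)
    (hS : ∀ v ∈ S, 0 < v ∧ 4 / 3 * (v / (1 + v)) < 1)
    {E g k K : ℕ} (h : Par a g k (MM g)) (hb : Big a g k (MM g) K E)
    (h2 : Big2 a g k K E) (h3 : Big3 a k K E) :
    ∃ t ∈ ivl (XX K E) (XX K E), (∀ j ∈ Ico 1 k, Squarefree (LL g j t)) ∧
      ∀ v ∈ S, Phi a η v g k t ≤ 12 * (S.card + 1) * CC η v K := by
  classical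
  by_contra hcon
  push Not at hcon
  set XV := (XX K E : ℝ) * V a E g k (MM g) with hXV
  have hX0 : (0 : ℝ) < XX K E := by unfold XX; positivity
  have hXV0 : 0 < XV := mul_pos hX0 (V_pos (E := E) h)
  have hl := lower h hb
  have hbad := bad_le h h2 h3
  set N : ℝ := 12 * (S.card + 1) with hN
  have hN0 : 0 < N := by rw [hN]; positivity
  have hpt : ∀ t ∈ ivl (XX K E) (XX K E), ch a E g k t ≤
      ch a E g k t * (if ∃ j ∈ Ico 1 k, ¬ Squarefree (LL g j t) then 1 else 0) +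
      ∑ v ∈ S, ch a E g k t * Phi a η v g k t / (N * CC η v K) := by
    intro t ht
    have hc0 := ch_nonneg a E g k t
    have hterm : ∀ v ∈ S, 0 ≤ ch a E g k t * Phi a η v g k t / (N * CC η v K) := by
      intro v hv
      obtain ⟨hv0, hv1⟩ := hS v hv
      have := CC_pos (η := η) hv0 hv1 K
      have := Phi_nonneg (a := a) (η := η) hv0 g k t
      positivity
    by_cases hb1 : ∃ j ∈ Ico 1 k, ¬ Squarefree (LL g j t)
    · rw [if_pos hb1, mul_one]
      have : 0 ≤ ∑ v ∈ S, ch a E g k t * Phi a η v g k t / (N * CC η v K) :=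
        Finset.sum_nonneg hterm
      linarith
    · rw [if_neg hb1, mul_zero, zero_add]
      push Not at hb1
      obtain ⟨v, hv, h4⟩ := hcon t ht hb1
      obtain ⟨hv0, hv1⟩ := hS v hv
      have hcv := CC_pos (η := η) hv0 hv1 K
      refine le_trans ?_ (Finset.single_le_sum hterm hv)
      have h7 : 1 ≤ Phi a η v g k t / (N * CC η v K) := by
        rw [le_div_iff₀ (by positivity)]; linarith
      have h9 : ch a E g k t * Phi a η v g k t / (N * CC η v K) =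
          ch a E g k t * (Phi a η v g k t / (N * CC η v K)) := by ring
      rw [h9]
      nlinarith
  have hsum := Finset.sum_le_sum hpt
  rw [Finset.sum_add_distrib, Finset.sum_comm] at hsum
  have hv2 : ∑ v ∈ S, ∑ t ∈ ivl (XX K E) (XX K E), ch a E g k t * Phi a η v g k t / (N * CC η v K) ≤
      ∑ _v ∈ S, XV / N := by
    apply Finset.sum_le_sum
    intro v hv
    obtain ⟨hv0, hv1⟩ := hS v hv
    have hcv := CC_pos (η := η) hv0 hv1 K
    rw [← Finset.sum_div, div_le_div_iff₀ (by positivity) hN0]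
    have := Phi_sum (a := a) hη hv0 hv1 h hb h2
    rw [← hXV] at this
    nlinarith
  rw [Finset.sum_const, nsmul_eq_mul] at hv2
  have hv3 : (S.card : ℝ) * (XV / N) ≤ (1 / 12) * XV := by
    rw [mul_div_assoc', div_le_iff₀ hN0, hN]
    have : (0 : ℝ) ≤ S.card := Nat.cast_nonneg _
    nlinarith
  have hl' : (1 / 3) * XV ≤ ∑ t ∈ ivl (XX K E) (XX K E), ch a E g k t := by
    rw [hXV, ← mul_assoc]; exact hl
  linarith

end Pool.Agent.MP_f32cb9_nt
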