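import Pool.Agent.MP_f32cb9_nt.Moment

set_option autoImplicit false

open Finset

namespace Pool.Agent.MP_f32cb9_nt

/-- condition for the negligible set -/
def Big3 (a : ℝ) (k K E : ℕ) : Prop :=
  (k : ℝ) * ((XX K E : ℝ) / (2 : ℝ) ^ ((E : ℝ) / (k : ℝ) ^ a) + (2 : ℝ) ^ (8 * ((K * E : ℕ) : ℝ) / 15)) ≤
    (1 / 12) * (XX K E : ℝ) * Real.exp (-(6 * (mm a E : ℝ)))

theorem count_sq {g j N H q : ℕ} (h1 : 1 ≤ j) (h2 : j ≤ 2 ^ g) (hq : 0 < q) :
    (((ivl N H).filter (fun t => q ∣ LL g j t)).card : ℝ) ≤ H / q + 1 := by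
  classical
  rcases Finset.eq_empty_or_nonempty ((ivl N H).filter (fun t => q ∣ LL g j t)) with he | ⟨r, hr⟩
  · rw [he, card_empty]
    have : (0 : ℝ) ≤ (H : ℝ) / q := by positivity
    push_cast
    linarith
  · obtain ⟨hr1, hr2⟩ := Finset.mem_filter.1 hr
    rw [mem_ivl] at hr1
    have h3 : (ivl N H).filter (fun t => q ∣ LL g j t) ⊆ (ivl N H).filter (fun t => t ≡ r [MOD q]) := by
      intro t ht
      obtain ⟨ht1, ht2⟩ := Finset.mem_filter.1 ht
      refine Finset.mem_filter.2 ⟨ht1, ?_⟩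
      rw [mem_ivl] at ht1
      exact LL_class h1 h2 (by omega) (by omega) ht2 hr2
    have h4 := count_ivl N H q r hq
    rw [abs_le] at h4
    have h5 : (((ivl N H).filter (fun t => q ∣ LL g j t)).card : ℝ) ≤
        ((ivl N H).filter (fun t => t ≡ r [MOD q])).card := by exact_mod_cast Finset.card_le_card h3
    linarith [h4.2]

theorem sqrt_le {g k K E : ℕ} {a : ℝ} (h2 : Big2 a g k K E) :
    ((Nat.sqrt (2 * MM g * XX K E) : ℕ) : ℝ) ≤ (2 : ℝ) ^ (8 * ((K * E : ℕ) : ℝ) / 15) := by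
  have h3 : (Nat.sqrt (2 * MM g * XX K E)) ^ 2 ≤ 2 * MM g * XX K E := Nat.sqrt_le' _
  have h4 : ((Nat.sqrt (2 * MM g * XX K E) : ℕ) : ℝ) ^ 2 ≤ 2 * MM g * XX K E := by exact_mod_cast h3
  have h5 : (((Nat.sqrt (2 * MM g * XX K E) : ℕ) : ℝ) ^ 2) ^ 3 ≤ (2 * MM g * XX K E) ^ 3 := by gcongr
  have h6 : (2 * (MM g : ℝ) * XX K E) ^ 3 ≤ ((2 : ℝ) ^ (8 * ((K * E : ℕ) : ℝ) / 15)) ^ 6 := by
    calc (2 * (MM g : ℝ) * XX K E) ^ 3 = (2 * (MM g : ℝ)) ^ 3 * (XX K E : ℝ) ^ 3 := by ring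
      _ ≤ (2 : ℝ) ^ (((K * E : ℕ) : ℝ) / 5) * (XX K E : ℝ) ^ 3 := by
          have := h2.c4
          gcongr
      _ = ((2 : ℝ) ^ (8 * ((K * E : ℕ) : ℝ) / 15)) ^ 6 := by
          rw [XX_rpow, ← Real.rpow_natCast ((2 : ℝ) ^ ((K * E : ℕ) : ℝ)) 3, ← Real.rpow_mul (by norm_num),
            ← Real.rpow_natCast ((2 : ℝ) ^ (8 * ((K * E : ℕ) : ℝ) / 15)) 6, ← Real.rpow_mul (by norm_num),
            ← Real.rpow_add (by norm_num)]
          congr 1
          push_cast
          ring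
  have h7 : ((Nat.sqrt (2 * MM g * XX K E) : ℕ) : ℝ) ^ 6 ≤ ((2 : ℝ) ^ (8 * ((K * E : ℕ) : ℝ) / 15)) ^ 6 := by
    refine le_trans (le_of_eq ?_) (h5.trans h6)
    ring
  exact (pow_le_pow_iff_left₀ (by positivity) (by positivity) (by norm_num)).1 h7

open Classical in
theorem bad_le {a : ℝ} {E g k K : ℕ} (h : Par a g k (MM g)) (h2 : Big2 a g k K E)
    (h3 : Big3 a k K E) :
    ∑ t ∈ ivl (XX K E) (XX K E), ch a E g k t *
      (if ∃ j ∈ Ico 1 k, ¬ Squarefree (LL g j t) then 1 else 0) ≤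
    (1 / 12) * ((XX K E : ℝ) * V a E g k (MM g)) := by
  set I := ivl (XX K E) (XX K E) with hI
  set Y := Nat.sqrt (2 * MM g * XX K E) with hY
  have hVge := V_ge (E := E) h
  have hX0 : (0 : ℝ) < XX K E := by unfold XX; positivity
  have hz0 : (0 : ℝ) < (2 : ℝ) ^ ((E : ℝ) / (k : ℝ) ^ a) := by positivity
  have hmain : ∀ j ∈ Ico 1 k, ∑ p ∈ Ioc (2 ^ ee a E (j - 1)) Y,
      (((I.filter (fun t => p ^ 2 ∣ LL g j t)).card : ℕ) : ℝ) ≤
      (XX K E : ℝ) / (2 : ℝ) ^ ((E : ℝ) / (k : ℝ) ^ a) + (2 : ℝ) ^ (8 * ((K * E : ℕ) : ℝ) / 15) := by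
    intro j hj
    obtain ⟨hj1, hj2⟩ := j_le h.g9 hj
    have hYle : (Y : ℝ) ≤ (2 : ℝ) ^ (8 * ((K * E : ℕ) : ℝ) / 15) := sqrt_le h2
    rcases lt_or_ge Y (2 ^ ee a E (j - 1)) with hlt | hge
    · rw [Finset.Ioc_eq_empty_of_le hlt.le, Finset.sum_empty]
      positivity
    · have h4 : ∀ p ∈ Ioc (2 ^ ee a E (j - 1)) Y,
          (((I.filter (fun t => p ^ 2 ∣ LL g j t)).card : ℕ) : ℝ) ≤ XX K E * ((p : ℝ) ^ 2)⁻¹ + 1 := by
        intro p hp
        rw [mem_Ioc] at hp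
        have hp0 : 0 < p := lt_of_le_of_lt (Nat.zero_le _) hp.1
        have := count_sq (N := XX K E) (H := XX K E) hj1 hj2 (q := p ^ 2) (by positivity)
        rw [← hI] at this
        push_cast at this
        rwa [div_eq_mul_inv] at this
      refine (Finset.sum_le_sum h4).trans ?_
      rw [Finset.sum_add_distrib, ← Finset.mul_sum, Finset.sum_const, Nat.card_Ioc, nsmul_eq_mul, mul_one]
      have h5 := sum_Ioc_inv_sq_le_sub (α := ℝ) (k := 2 ^ ee a E (j - 1)) (n := Y) (by positivity) hge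
      have h6 : (((2 ^ ee a E (j - 1) : ℕ) : ℝ))⁻¹ ≤ ((2 : ℝ) ^ ((E : ℝ) / (k : ℝ) ^ a))⁻¹ := by
        apply inv_anti₀ hz0
        push_cast
        rw [← Real.rpow_natCast]
        apply Real.rpow_le_rpow_of_exponent_le (by norm_num)
        exact ee_k (by linarith [h.a1]) hj
      have h7 : (0 : ℝ) ≤ (Y : ℝ)⁻¹ := by positivity
      have h8 : ((Y - 2 ^ ee a E (j - 1) : ℕ) : ℝ) ≤ Y := by exact_mod_cast Nat.sub_le _ _
      have h9 : (XX K E : ℝ) * ∑ i ∈ Ioc (2 ^ ee a E (j - 1)) Y, ((i : ℝ) ^ 2)⁻¹ ≤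
          (XX K E : ℝ) / (2 : ℝ) ^ ((E : ℝ) / (k : ℝ) ^ a) := by
        rw [div_eq_mul_inv]
        apply mul_le_mul_of_nonneg_left _ hX0.le
        linarith
      linarith
  calc ∑ t ∈ I, ch a E g k t * (if ∃ j ∈ Ico 1 k, ¬ Squarefree (LL g j t) then 1 else 0)
      ≤ ∑ t ∈ I, ∑ j ∈ Ico 1 k, ∑ p ∈ Ioc (2 ^ ee a E (j - 1)) Y,
          (if p ^ 2 ∣ LL g j t then (1 : ℝ) else 0) := by
        apply Finset.sum_le_sum
        intro t ht
        have hnn : 0 ≤ ∑ j ∈ Ico 1 k, ∑ p ∈ Ioc (2 ^ ee a E (j - 1)) Y,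
          (if p ^ 2 ∣ LL g j t then (1 : ℝ) else 0) := by
          apply Finset.sum_nonneg; intro j _
          apply Finset.sum_nonneg; intro p _
          split_ifs <;> norm_num
        rcases ch_zero_or_one a E g k t with h0 | h0
        · rw [h0, zero_mul]; exact hnn
        · rw [h0, one_mul]
          split_ifs with hbad
          · obtain ⟨j, hj, hsq⟩ := hbad
            obtain ⟨hj1, hj2⟩ := j_le h.g9 hj
            have ht' := mem_ivl.1 ht
            have hLpos := LL_pos hj1 hj2 (t := t) (by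
              have : 1 ≤ XX K E := Nat.one_le_two_pow
              omega)
            rw [Nat.squarefree_iff_prime_squarefree] at hsq
            push Not at hsq
            obtain ⟨p, hp, hpd⟩ := hsq
            have hgt : 2 ^ ee a E (j - 1) < p :=
              rough_LL h.a1 h.g9 hj (by omega) (by rw [h0]; norm_num) p hp ((dvd_mul_right p p).trans hpd)
            have hle : p ≤ Y := by
              rw [hY, Nat.le_sqrt]
              have h4 := Nat.le_of_dvd hLpos hpd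
              have h5 := LL_le (g := g) (j := j) ht
              have h6 : LL g j t ≤ 2 * MM g * XX K E := by exact_mod_cast h5
              omega
            calc (1 : ℝ) = (if p ^ 2 ∣ LL g j t then (1 : ℝ) else 0) := by
                  rw [if_pos (by rw [pow_two]; exact hpd)]
              _ ≤ ∑ p ∈ Ioc (2 ^ ee a E (j - 1)) Y, (if p ^ 2 ∣ LL g j t then (1 : ℝ) else 0) := by
                  apply Finset.single_le_sum (f := fun p => (if p ^ 2 ∣ LL g j t then (1 : ℝ) else 0))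
                  · intro q _
                    split_ifs <;> norm_num
                  · exact mem_Ioc.2 ⟨hgt, hle⟩
              _ ≤ _ := by
                  apply Finset.single_le_sum (f := fun j => ∑ p ∈ Ioc (2 ^ ee a E (j - 1)) Y,
                    (if p ^ 2 ∣ LL g j t then (1 : ℝ) else 0))
                  · intro q _
                    apply Finset.sum_nonneg; intro p _
                    split_ifs <;> norm_num
                  · exact hj
          · exact hnn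
    _ = ∑ j ∈ Ico 1 k, ∑ p ∈ Ioc (2 ^ ee a E (j - 1)) Y,
          (((I.filter (fun t => p ^ 2 ∣ LL g j t)).card : ℕ) : ℝ) := by
        rw [Finset.sum_comm]
        apply Finset.sum_congr rfl
        intro j _
        rw [Finset.sum_comm]
        apply Finset.sum_congr rfl
        intro p _
        rw [← Finset.sum_filter, Finset.sum_const, nsmul_eq_mul, mul_one]
    _ ≤ ∑ _j ∈ Ico 1 k, ((XX K E : ℝ) / (2 : ℝ) ^ ((E : ℝ) / (k : ℝ) ^ a) +
          (2 : ℝ) ^ (8 * ((K * E : ℕ) : ℝ) / 15)) := Finset.sum_le_sum hmain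
    _ ≤ (k : ℝ) * ((XX K E : ℝ) / (2 : ℝ) ^ ((E : ℝ) / (k : ℝ) ^ a) +
          (2 : ℝ) ^ (8 * ((K * E : ℕ) : ℝ) / 15)) := by
        rw [Finset.sum_const, nsmul_eq_mul, Nat.card_Ico]
        apply mul_le_mul_of_nonneg_right _ (by positivity)
        exact_mod_cast Nat.sub_le k 1
    _ ≤ (1 / 12) * (XX K E : ℝ) * Real.exp (-(6 * (mm a E : ℝ))) := h3
    _ ≤ (1 / 12) * ((XX K E : ℝ) * V a E g k (MM g)) := by
        rw [mul_assoc]
        gcongr

end Pool.Agent.MP_f32cb9_nt
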