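import Pool.Agent.MP_f32cb9_nt.Bad

set_option autoImplicit false

open Finset Filter

namespace Pool.Agent.MP_f32cb9_nt

theorem mm_small {a : ℝ} (ha : 1 < a) {δ : ℝ} (hδ : 0 < δ) (D : ℝ) :
    ∀ᶠ E : ℕ in atTop, 7 * (mm a E : ℝ) + D ≤ δ * E := by
  have h1 : Tendsto (fun E : ℕ => (E : ℝ) ^ (-(1 - 1 / a))) atTop (nhds 0) := by
    have hpos : 0 < 1 - 1 / a := by
      rw [sub_pos, div_lt_one (by linarith)]; exact ha
    exact (tendsto_rpow_neg_atTop hpos).comp tendsto_natCast_atTop_atTop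
  have h2 : ∀ᶠ E : ℕ in atTop, (E : ℝ) ^ (-(1 - 1 / a)) < δ / 14 :=
    h1.eventually (gt_mem_nhds (by positivity))
  have h3 : ∀ᶠ E : ℕ in atTop, (7 + D) * 2 / δ ≤ (E : ℝ) :=
    tendsto_natCast_atTop_atTop.eventually (eventually_ge_atTop _)
  filter_upwards [h2, h3, eventually_ge_atTop 1] with E h2 h3 h4
  have hE : (0 : ℝ) < E := by exact_mod_cast h4
  have h5 : (mm a E : ℝ) ≤ (E : ℝ) ^ (1 / a) + 1 := by
    unfold mm
    exact (Nat.ceil_lt_add_one (by positivity)).le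
  have h6 : (E : ℝ) ^ (1 / a) = (E : ℝ) ^ (-(1 - 1 / a)) * E := by
    nth_rewrite 3 [← Real.rpow_one (E : ℝ)]
    rw [← Real.rpow_add hE]
    congr 1; ring
  have h7 : (E : ℝ) ^ (1 / a) ≤ δ / 14 * E := by
    rw [h6]; exact mul_le_mul_of_nonneg_right h2.le hE.le
  rw [div_le_iff₀ hδ] at h3
  linarith

theorem log_le_mm {a : ℝ} (ha : 1 < a) (ha2 : a ≤ 2) (E : ℕ) : Real.log E ≤ 2 * (mm a E : ℝ) := by
  have h1 := Real.log_le_rpow_div (x := (E : ℝ)) (Nat.cast_nonneg _) (ε := 1 / a) (by positivity)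
  have h2 : (E : ℝ) ^ (1 / a) ≤ mm a E := by unfold mm; exact Nat.le_ceil _
  have h3 : (E : ℝ) ^ (1 / a) / (1 / a) = a * (E : ℝ) ^ (1 / a) := by
    field_simp
  rw [h3] at h1
  have h4 : (0 : ℝ) ≤ (E : ℝ) ^ (1 / a) := by positivity
  nlinarith

theorem cond_large {a : ℝ} (ha : 1 < a) (ha2 : a ≤ 2) {g k K : ℕ} (hk : 1 ≤ k)
    (hK : 2 ≤ K) (hlev : 32 * ∑' i, lev a i ≤ K) :
    ∀ᶠ E : ℕ in atTop, Big a g k (MM g) K E ∧ Big2 a g k K E ∧ Big3 a k K E := by
  have hka : (1 : ℝ) ≤ (k : ℝ) ^ a :=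
    Real.one_le_rpow (by exact_mod_cast hk) (by linarith)
  have hk1 : (1 : ℝ) ≤ k := by exact_mod_cast hk
  have hK1 : (2 : ℝ) ≤ K := by exact_mod_cast hK
  have hl2 : 0 < Real.log 2 := Real.log_pos (by norm_num)
  have hMM : (1 : ℝ) ≤ MM g := by exact_mod_cast MM_pos g
  set D : ℝ := Real.log 6 + Real.log (2 * k * K) + 3 * Real.log (2 * MM g) + Real.log (24 * k) with hD
  have d1 : 0 ≤ Real.log 6 := Real.log_nonneg (by norm_num)
  have d2 : 0 ≤ Real.log (2 * k * K) := Real.log_nonneg (by nlinarith)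
  have d3 : 0 ≤ Real.log (2 * (MM g : ℝ)) := Real.log_nonneg (by linarith)
  have d4 : 0 ≤ Real.log (24 * (k : ℝ)) := Real.log_nonneg (by linarith)
  have hδ : 0 < Real.log 2 / (14 * (k : ℝ) ^ a) := by positivity
  filter_upwards [mm_small ha hδ D, eventually_ge_atTop 1] with E h1 hE1
  have hE : (1 : ℝ) ≤ E := by exact_mod_cast hE1
  set m : ℝ := (mm a E : ℝ) with hm
  have hm0 : 0 ≤ m := Nat.cast_nonneg _
  -- comparison of the rates
  have r1 : Real.log 2 / (14 * (k : ℝ) ^ a) * E ≤ Real.log 2 * (E / (k : ℝ) ^ a) := by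
    have e : Real.log 2 / (14 * (k : ℝ) ^ a) * E = Real.log 2 * (E / (k : ℝ) ^ a) / 14 := by
      field_simp
    rw [e]
    have : 0 ≤ Real.log 2 * (E / (k : ℝ) ^ a) := by positivity
    linarith
  have r2 : Real.log 2 / (14 * (k : ℝ) ^ a) * E ≤ Real.log 2 * (E / 14) := by
    have e : Real.log 2 / (14 * (k : ℝ) ^ a) * E = Real.log 2 * (E / 14) / (k : ℝ) ^ a := by
      field_simp
    rw [e]
    apply div_le_self (by positivity) hka
  have hKE : ((K * E : ℕ) : ℝ) = K * E := by push_cast; ring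
  have hKE2 : 2 * (E : ℝ) ≤ K * E := mul_le_mul_of_nonneg_right hK1 (by linarith)
  have exp2 : ∀ x : ℝ, (2 : ℝ) ^ x = Real.exp (Real.log 2 * x) := fun x =>
    Real.rpow_def_of_pos (by norm_num) x
  have hXX : (XX K E : ℝ) = Real.exp (Real.log 2 * (K * E)) := by
    rw [XX_rpow, exp2, hKE]
  refine ⟨⟨hlev, ?_, ?_, ?_⟩, ⟨hK, hE1, ?_⟩, ?_⟩
  · -- c1
    rw [hXX, exp2, hKE]
    have h2 : m + 1 ≤ Real.exp m := Real.add_one_le_exp m
    have h3 : (1 : ℝ) / 6 = Real.exp (-Real.log 6) := by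
      rw [Real.exp_neg, Real.exp_log (by norm_num)]; norm_num
    rw [h3, ← Real.exp_add, ← Real.exp_add]
    calc (m + 1) * Real.exp (Real.log 2 * (K * E / 8)) ≤
        Real.exp m * Real.exp (Real.log 2 * (K * E / 8)) := by gcongr
      _ = Real.exp (m + Real.log 2 * (K * E / 8)) := by rw [Real.exp_add]
      _ ≤ _ := by
        apply Real.exp_le_exp.2
        nlinarith [mul_le_mul_of_nonneg_left hKE2 hl2.le, mul_nonneg hl2.le (by linarith : (0 : ℝ) ≤ E)]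
  · -- c2
    rw [exp2, exp2, hKE, ← Real.exp_add]
    apply Real.exp_le_exp.2
    nlinarith [mul_le_mul_of_nonneg_left hKE2 hl2.le, mul_nonneg hl2.le (by linarith : (0 : ℝ) ≤ E)]
  · -- c3
    rw [exp2, hKE]
    have h2 := log_le_mm ha ha2 E
    have h3 : 2 * (k : ℝ) * (K * E) = Real.exp (Real.log (2 * k * K) + Real.log E) := by
      rw [Real.exp_add, Real.exp_log (by positivity), Real.exp_log (by positivity)]
      ring
    rw [h3]
    apply Real.exp_le_exp.2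
    linarith
  · -- c4
    rw [exp2, hKE]
    have h3 : (2 * (MM g : ℝ)) ^ 3 = Real.exp (3 * Real.log (2 * MM g)) := by
      rw [mul_comm 3, Real.exp_mul, Real.exp_log (by positivity)]
      norm_num
    rw [h3]
    apply Real.exp_le_exp.2
    nlinarith [mul_le_mul_of_nonneg_left hKE2 hl2.le, mul_nonneg hl2.le (by linarith : (0 : ℝ) ≤ E)]
  · -- c5
    unfold Big3
    have hX0 : 0 < (XX K E : ℝ) := by rw [hXX]; exact Real.exp_pos _
    have h24 : Real.exp (-Real.log (24 * k)) = 1 / (24 * k) := by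
      rw [Real.exp_neg, Real.exp_log (by positivity)]; norm_num
    have h2 : (XX K E : ℝ) / (2 : ℝ) ^ ((E : ℝ) / (k : ℝ) ^ a) ≤
        (XX K E : ℝ) * (1 / (24 * k) * Real.exp (-(6 * m))) := by
      rw [div_eq_mul_inv, exp2, ← Real.exp_neg, ← h24, ← Real.exp_add]
      apply mul_le_mul_of_nonneg_left _ hX0.le
      apply Real.exp_le_exp.2
      linarith
    have h3 : (2 : ℝ) ^ (8 * ((K * E : ℕ) : ℝ) / 15) ≤
        (XX K E : ℝ) * (1 / (24 * k) * Real.exp (-(6 * m))) := by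
      rw [exp2, hKE, ← h24, ← Real.exp_add, hXX, ← Real.exp_add]
      apply Real.exp_le_exp.2
      nlinarith [mul_le_mul_of_nonneg_left hKE2 hl2.le, mul_nonneg hl2.le (by linarith : (0 : ℝ) ≤ E)]
    have hk0 : (0 : ℝ) < k := by linarith
    calc (k : ℝ) * ((XX K E : ℝ) / (2 : ℝ) ^ ((E : ℝ) / (k : ℝ) ^ a) + (2 : ℝ) ^ (8 * ((K * E : ℕ) : ℝ) / 15))
        ≤ k * ((XX K E : ℝ) * (1 / (24 * k) * Real.exp (-(6 * m))) +
          (XX K E : ℝ) * (1 / (24 * k) * Real.exp (-(6 * m)))) := by gcongr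
      _ = (1 / 12) * (XX K E : ℝ) * Real.exp (-(6 * m)) := by
          field_simp
          ring

end Pool.Agent.MP_f32cb9_nt
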