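import Pool.Agent.MP_f32cb9_nt.Sieve

set_option autoImplicit false

open Finset

namespace Pool.Agent.MP_f32cb9_nt

open Pool.Agent.Lib.helper94.ANT (bonS bonferroni)

theorem esy_zero {ι : Type*} (w : ι → ℝ) (B : Finset ι) : esy w 0 B = 1 := by
  unfold esy; simp

theorem esy_insert {ι : Type*} [DecidableEq ι] (w : ι → ℝ) (n : ℕ) (B : Finset ι) (j : ι)
    (hj : j ∉ B) : esy w (n + 1) (insert j B) = esy w (n + 1) B + w j * esy w n B := by
  unfold esy
  rw [Finset.powersetCard_succ_insert hj, Finset.sum_union]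
  · congr 1
    rw [Finset.sum_image, Finset.mul_sum]
    · apply Finset.sum_congr rfl
      intro Q hQ
      have : j ∉ Q := fun h => hj ((mem_powersetCard.1 hQ).1 h)
      rw [Finset.prod_insert this]
    · intro Q hQ Q' hQ' h
      have h1 : j ∉ Q := fun h => hj ((mem_powersetCard.1 hQ).1 h)
      have h2 : j ∉ Q' := fun h => hj ((mem_powersetCard.1 hQ').1 h)
      rw [← Finset.erase_insert h1, h, Finset.erase_insert h2]
  · rw [Finset.disjoint_left]
    intro Q hQ hQ2
    obtain ⟨Q', _, rfl⟩ := Finset.mem_image.1 hQ2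
    exact hj ((mem_powersetCard.1 hQ).1 (mem_insert_self _ _))

theorem add_pow_ge (x y : ℝ) (hx : 0 ≤ x) (hy : 0 ≤ y) (n : ℕ) :
    x ^ (n + 1) + (n + 1) * y * x ^ n ≤ (x + y) ^ (n + 1) := by
  induction n with
  | zero => simp
  | succ n ih =>
    have h0 : 0 ≤ x + y := by positivity
    have h1 := mul_le_mul_of_nonneg_right ih h0
    have h2 : 0 ≤ ((n : ℝ) + 1) * y * x ^ n * y := by positivity
    have e1 : (x + y) ^ (n + 1 + 1) = (x + y) ^ (n + 1) * (x + y) := pow_succ _ _
    have e2 : (x ^ (n + 1) + (n + 1) * y * x ^ n) * (x + y) =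
        x ^ (n + 1 + 1) + ((n : ℝ) + 2) * y * x ^ (n + 1) + ((n : ℝ) + 1) * y * x ^ n * y := by
      ring
    push_cast
    rw [e1]
    linarith [e2 ▸ h1]

theorem esy_le {ι : Type*} (w : ι → ℝ) (n : ℕ) (B : Finset ι) (hw : ∀ i ∈ B, 0 ≤ w i) :
    esy w n B ≤ (∑ i ∈ B, w i) ^ n / n.factorial := by
  classical
  induction B using Finset.induction_on generalizing n with
  | empty =>
    cases n with
    | zero => simp [esy_zero]
    | succ n =>
      have : powersetCard (n + 1) (∅ : Finset ι) = ∅ :=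
        Finset.powersetCard_eq_empty.2 (by simp)
      simp [esy, this]
  | insert j B hj ih =>
    have hwB : ∀ i ∈ B, 0 ≤ w i := fun i hi => hw i (mem_insert_of_mem hi)
    have hwj := hw j (mem_insert_self j B)
    have hs : 0 ≤ ∑ i ∈ B, w i := Finset.sum_nonneg hwB
    cases n with
    | zero => simp [esy_zero]
    | succ n =>
      rw [esy_insert w n B j hj, Finset.sum_insert hj]
      have h1 := ih (n + 1) hwB
      have h2 := mul_le_mul_of_nonneg_left (ih n hwB) hwj
      have h3 := add_pow_ge (∑ i ∈ B, w i) (w j) hs hwj n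
      have hf : ((n + 1).factorial : ℝ) = (n + 1) * n.factorial := by
        rw [Nat.factorial_succ]; push_cast; ring
      have hf0 : (0 : ℝ) < n.factorial := by exact_mod_cast n.factorial_pos
      have hf1 : (0 : ℝ) < (n + 1).factorial := by exact_mod_cast (n + 1).factorial_pos
      have e : (∑ i ∈ B, w i) ^ (n + 1) / ((n + 1).factorial : ℝ) +
          w j * ((∑ i ∈ B, w i) ^ n / n.factorial) =
          ((∑ i ∈ B, w i) ^ (n + 1) + (n + 1) * w j * (∑ i ∈ B, w i) ^ n) /
            ((n + 1).factorial : ℝ) := by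
        rw [hf]; field_simp
      calc esy w (n + 1) B + w j * esy w n B ≤ _ := add_le_add h1 h2
        _ = _ := e
        _ ≤ _ := by
          apply div_le_div_of_nonneg_right _ hf1.le
          rw [add_comm (w j)]
          exact h3

theorem Wt_eq (R : ℕ → Finset ℕ) (k : ℕ) (B : Finset ℕ) :
    Wt R k B = ∑ n ∈ range (k + 1), esy (fun p => ((R p).card : ℝ)) n B := by
  classical
  unfold Wt esy
  rw [← Finset.sum_filter]
  have h : B.powerset.filter (fun Q => Q.card ≤ k) =
      (range (k + 1)).biUnion (fun n => B.powersetCard n) := by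
    ext Q
    simp only [mem_filter, mem_powerset, mem_biUnion, mem_range, mem_powersetCard]
    constructor
    · rintro ⟨h1, h2⟩; exact ⟨Q.card, by omega, h1, rfl⟩
    · rintro ⟨n, h1, h2, h3⟩; exact ⟨h2, by omega⟩
  rw [h, Finset.sum_biUnion]
  intro n _ n' _ hnn
  exact Finset.pairwise_disjoint_powersetCard B hnn

theorem Wt_le (R : ℕ → Finset ℕ) (k : ℕ) (B : Finset ℕ) :
    Wt R k B ≤ (1 + ∑ p ∈ B, ((R p).card : ℝ)) ^ k := by
  rw [Wt_eq, add_comm (1 : ℝ) _, add_pow]
  apply Finset.sum_le_sum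
  intro n hn
  have hs : 0 ≤ ∑ p ∈ B, ((R p).card : ℝ) := Finset.sum_nonneg fun p _ => Nat.cast_nonneg _
  have h1 := esy_le (fun p => ((R p).card : ℝ)) n B (fun p _ => Nat.cast_nonneg _)
  rw [one_pow, mul_one]
  refine h1.trans ?_
  have h2 : (1 : ℝ) ≤ n.factorial := by exact_mod_cast n.factorial_pos
  have h3 : (1 : ℝ) ≤ k.choose n := by
    exact_mod_cast Nat.choose_pos (Nat.lt_succ_iff.1 (mem_range.1 hn))
  have h4 : 0 ≤ (∑ p ∈ B, ((R p).card : ℝ)) ^ n := by positivity
  calc (∑ p ∈ B, ((R p).card : ℝ)) ^ n / n.factorial ≤ (∑ p ∈ B, ((R p).card : ℝ)) ^ n :=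
        div_le_self h4 h2
    _ ≤ _ := le_mul_of_one_le_right h4 h3

variable (R : ℕ → Finset ℕ) (B : ℕ → Finset ℕ) (b : ℕ → ℕ)

/-- product over one block -/
noncomputable def Vb (i : ℕ) : ℝ := ∏ p ∈ B i, (1 - dens R p)

/-- full product -/
noncomputable def VV (m : ℕ) : ℝ := ∏ i ∈ range m, Vb R B i

theorem dens_bonS (C : Finset ℕ) (k : ℕ) (hd : ∀ p ∈ C, 0 ≤ dens R p ∧ dens R p ≤ 1) :
    ∏ p ∈ C, (1 - dens R p) ≤ bonS (dens R) (2 * k) C ∧
    bonS (dens R) (2 * k) C ≤ ∏ p ∈ C, (1 - dens R p) + esy (dens R) (2 * k + 1) C := by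
  have h1 := bonferroni (dens R) C hd (2 * k)
  have h2 := bonferroni (dens R) C hd (2 * k + 1)
  rw [bonS_succ_eq, pow_succ, pow_mul] at h2
  rw [pow_mul] at h1
  norm_num at h1 h2
  constructor <;> linarith

theorem VV_nonneg (m : ℕ) (hd : ∀ i < m, ∀ p ∈ B i, 0 ≤ dens R p ∧ dens R p ≤ 1) :
    0 ≤ VV R B m := by
  unfold VV Vb
  apply Finset.prod_nonneg
  intro i hi
  apply Finset.prod_nonneg
  intro p hp
  linarith [(hd i (mem_range.1 hi) p hp).2]

theorem GA_le (e : ℕ → ℝ) (m : ℕ)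
    (hd : ∀ i < m, ∀ p ∈ B i, 0 ≤ dens R p ∧ dens R p ≤ 1)
    (hU : ∀ i < m, esy (dens R) (2 * b i + 1) (B i) ≤ e i * Vb R B i) :
    0 ≤ GA R B b m ∧ GA R B b m ≤ Real.exp (∑ i ∈ range m, e i) * VV R B m := by
  induction m with
  | zero => simp [GA, VV]
  | succ m ih =>
    obtain ⟨ih0, ih1⟩ := ih (fun i hi => hd i (by omega)) (fun i hi => hU i (by omega))
    obtain ⟨h1, h2⟩ := dens_bonS R (B m) (b m) (hd m (by omega))
    have h3 := hU m (by omega)
    have hV : 0 ≤ Vb R B m := by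
      unfold Vb
      exact Finset.prod_nonneg fun p hp => by linarith [(hd m (by omega) p hp).2]
    have hT0 : 0 ≤ bonS (dens R) (2 * b m) (B m) := hV.trans h1
    have hT : bonS (dens R) (2 * b m) (B m) ≤ Real.exp (e m) * Vb R B m := by
      have h4 := Real.add_one_le_exp (e m)
      have h5 : (e m + 1) * Vb R B m ≤ Real.exp (e m) * Vb R B m :=
        mul_le_mul_of_nonneg_right h4 hV
      have h6 : bonS (dens R) (2 * b m) (B m) ≤ Vb R B m + esy (dens R) (2 * b m + 1) (B m) := h2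
      linarith
    refine ⟨mul_nonneg ih0 hT0, ?_⟩
    rw [GA, Finset.sum_range_succ, Real.exp_add]
    have e1 : VV R B (m + 1) = VV R B m * Vb R B m := by
      unfold VV; rw [Finset.prod_range_succ]
    rw [e1]
    have hVV : 0 ≤ VV R B m := VV_nonneg R B m (fun i hi => hd i (by omega))
    calc GA R B b m * bonS (dens R) (2 * b m) (B m)
        ≤ (Real.exp (∑ i ∈ range m, e i) * VV R B m) * (Real.exp (e m) * Vb R B m) :=
          mul_le_mul ih1 hT hT0 (by positivity)
      _ = _ := by ring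

theorem HA_ge (e : ℕ → ℝ) (he : ∀ i, 0 ≤ e i) (m : ℕ) (hs : ∑ i ∈ range m, e i ≤ 1 / 4)
    (hd : ∀ i < m, ∀ p ∈ B i, 0 ≤ dens R p ∧ dens R p ≤ 1)
    (hU : ∀ i < m, esy (dens R) (2 * b i + 1) (B i) ≤ e i * Vb R B i) :
    (1 - 2 * ∑ i ∈ range m, e i) * VV R B m ≤ HA R B b m := by
  induction m with
  | zero => simp [HA, VV]
  | succ m ih =>
    have hs' : ∑ i ∈ range m, e i ≤ 1 / 4 := by
      rw [Finset.sum_range_succ] at hs
      linarith [he m]
    have hd' : ∀ i < m, ∀ p ∈ B i, 0 ≤ dens R p ∧ dens R p ≤ 1 := fun i hi => hd i (by omega)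
    have hU' : ∀ i < m, esy (dens R) (2 * b i + 1) (B i) ≤ e i * Vb R B i :=
      fun i hi => hU i (by omega)
    have ih' := ih hs' hd' hU'
    obtain ⟨h1, h2⟩ := dens_bonS R (B m) (b m) (hd m (by omega))
    have h3 := hU m (by omega)
    obtain ⟨g0, g1⟩ := GA_le R B b e m hd' hU'
    have hV : 0 ≤ Vb R B m := by
      unfold Vb
      exact Finset.prod_nonneg fun p hp => by linarith [(hd m (by omega) p hp).2]
    have hVV : 0 ≤ VV R B m := VV_nonneg R B m hd'
    have hE : Real.exp (∑ i ∈ range m, e i) ≤ 2 := by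
      have h4 : Real.exp (∑ i ∈ range m, e i) ≤ Real.exp (1 / 4) := Real.exp_le_exp.2 hs'
      have h5 : Real.exp (1 / 4) ≤ 1 / (1 - 1 / 4) :=
        Real.exp_bound_div_one_sub_of_interval (by norm_num) (by norm_num)
      linarith [show (1 : ℝ) / (1 - 1 / 4) ≤ 2 by norm_num]
    have e1 : VV R B (m + 1) = VV R B m * Vb R B m := by
      unfold VV; rw [Finset.prod_range_succ]
    rw [HA, e1, Finset.sum_range_succ]
    set S := ∑ i ∈ range m, e i with hS
    have hpos : 0 ≤ (1 - 2 * S) * VV R B m := mul_nonneg (by linarith) hVV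
    have k1 : (1 - 2 * S) * VV R B m * Vb R B m ≤ HA R B b m * bonS (dens R) (2 * b m) (B m) :=
      mul_le_mul ih' h1 hV (hpos.trans ih')
    have k2 : GA R B b m * esy (dens R) (2 * b m + 1) (B m) ≤
        (2 * VV R B m) * (e m * Vb R B m) := by
      apply mul_le_mul _ h3 (esy_nonneg _ _ _ fun p hp => (hd m (by omega) p hp).1) (by positivity)
      exact g1.trans (mul_le_mul_of_nonneg_right hE hVV)
    nlinarith

end Pool.Agent.MP_f32cb9_nt
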