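import Pool.Agent.MP_f32cb9_nt.Avg
import Pool.Agent.Lib.helper69.DivisorBound

set_option autoImplicit false

open Finset Filter

namespace Pool.Agent.MP_f32cb9_nt

/-- the exponent `(1 + log log 2) / log 2 = 0.91392...` -/
noncomputable def theta : ℝ := (1 + Real.log (Real.log 2)) / Real.log 2

theorem log_two_bds : 0 < Real.log 2 ∧ Real.log 2 < 1 ∧ 1 / 2 < Real.log 2 := by
  have h1 := Real.log_two_gt_d9
  have h2 := Real.log_two_lt_d9
  refine ⟨by linarith, by linarith, by linarith⟩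

theorem card_divisors_sq {m : ℕ} (hsq : Squarefree m) :
    m.divisors.card = 2 ^ m.primeFactors.card := by
  have hm : m ≠ 0 := hsq.ne_zero
  rw [Nat.card_divisors hm, ← Finset.prod_const]
  apply Finset.prod_congr rfl
  intro p hp
  have h1 := hsq.natFactorization_le_one p
  have h2 : m.factorization p ≠ 0 := by
    rw [← Finsupp.mem_support_iff, Nat.support_factorization]; exact hp
  omega

/-- the number of divisors of a form -/
theorem card_divisors_form {g j t : ℕ} (h1 : 1 ≤ j) (h2 : j ≤ 2 ^ g) (ht : 1 ≤ t)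
    (hsq : Squarefree (LL g j t)) :
    (MM g * t - j).divisors.card = j.divisors.card * 2 ^ (LL g j t).primeFactors.card := by
  rw [sub_eq h1 h2 ht, Nat.Coprime.card_divisors_mul (coprime_LL h1 h2 ht), card_divisors_sq hsq]

/-- one term of the moment -/
theorem term_le {a η v B : ℝ} (hv : 0 < v) {g k t j : ℕ} (hj : j ∈ Ico 1 k)
    (h : Phi a η v g k t ≤ B) :
    (1 + v) ^ (LL g j t).primeFactors.card ≤ B * (j : ℝ) ^ (a * v + 1 + η) := by
  have hj0 : (0 : ℝ) < j := by exact_mod_cast (mem_Ico.1 hj).1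
  have h1 : (1 + v) ^ (LL g j t).primeFactors.card / (j : ℝ) ^ (a * v + 1 + η) ≤ B := by
    refine le_trans ?_ h
    unfold Phi
    exact Finset.single_le_sum
      (f := fun j : ℕ => (1 + v) ^ (LL g j t).primeFactors.card / (j : ℝ) ^ (a * v + 1 + η))
      (fun i _ => by positivity) hj
  rwa [div_le_iff₀ (by positivity)] at h1

/-- partial sums of the moment -/
theorem part_le {a η v B s : ℝ} (hv : 0 < v) {g k t y : ℕ} (hy : y ≤ k)
    (h : Phi a η v g k t ≤ B) (hs : 0 ≤ s) (f : ℕ → ℝ)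
    (hf : ∀ j ∈ Ico 1 y, f j ≤ (j : ℝ) ^ s *
      ((1 + v) ^ (LL g j t).primeFactors.card / (j : ℝ) ^ (a * v + 1 + η))) :
    ∑ j ∈ Ico 1 y, f j ≤ B * (y : ℝ) ^ s := by
  calc ∑ j ∈ Ico 1 y, f j ≤ ∑ j ∈ Ico 1 y, (y : ℝ) ^ s *
      ((1 + v) ^ (LL g j t).primeFactors.card / (j : ℝ) ^ (a * v + 1 + η)) := by
        apply Finset.sum_le_sum
        intro j hj
        refine (hf j hj).trans ?_
        apply mul_le_mul_of_nonneg_right _ (by positivity)
        apply Real.rpow_le_rpow (by positivity) _ hs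
        exact_mod_cast (mem_Ico.1 hj).2.le
    _ = (y : ℝ) ^ s * ∑ j ∈ Ico 1 y,
      ((1 + v) ^ (LL g j t).primeFactors.card / (j : ℝ) ^ (a * v + 1 + η)) := by
        rw [Finset.mul_sum]
    _ ≤ (y : ℝ) ^ s * Phi a η v g k t := by
        apply mul_le_mul_of_nonneg_left _ (by positivity)
        unfold Phi
        apply Finset.sum_le_sum_of_subset_of_nonneg
        · intro j hj
          rw [mem_Ico] at hj ⊢
          omega
        · intro j _ _; positivity
    _ ≤ (y : ℝ) ^ s * B := mul_le_mul_of_nonneg_left h (by positivity)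
    _ = _ := mul_comm _ _

/-- first consequence -/
theorem cons_a {a η ε B D : ℝ} (ha : 1 < a) (hη : 0 < η) (hD : 1 ≤ D)
    (hexp : η * (1 + Real.log 2) + (a - 1) * (Real.exp 1 - 1) * Real.log 2 ≤ ε)
    (hdiv : ∀ n : ℕ, 1 ≤ n → (n.divisors.card : ℝ) ≤ D * (n : ℝ) ^ η)
    {g k t j : ℕ} (hj : j ∈ Ico 1 k) (hB : 1 ≤ B)
    (h : Phi a η (Real.exp 1 - 1) g k t ≤ B) :
    (j.divisors.card : ℝ) * 2 ^ (LL g j t).primeFactors.card ≤
      D * B * (j : ℝ) ^ (Real.exp 1 * Real.log 2 + ε) := by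
  obtain ⟨l0, l1, _⟩ := log_two_bds
  have hj1 := (mem_Ico.1 hj).1
  have hj0 : (0 : ℝ) < j := by exact_mod_cast hj1
  have hjone : (1 : ℝ) ≤ j := by exact_mod_cast hj1
  have he : 0 < Real.exp 1 - 1 := by have := Real.add_one_lt_exp (x := 1) one_ne_zero; linarith
  have h1 := term_le he hj h
  have e1 : 1 + (Real.exp 1 - 1) = Real.exp 1 := by ring
  rw [e1] at h1
  set ω := (LL g j t).primeFactors.card with hω
  have h2 : (2 : ℝ) ^ ω = (Real.exp 1 ^ ω) ^ Real.log 2 := by
    rw [← Real.rpow_natCast, ← Real.rpow_natCast, ← Real.rpow_mul (Real.exp_pos _).le,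
      Real.rpow_def_of_pos (by norm_num : (0 : ℝ) < 2), Real.exp_one_rpow]
    ring_nf
  have h3 : (2 : ℝ) ^ ω ≤ B * (j : ℝ) ^ ((a * (Real.exp 1 - 1) + 1 + η) * Real.log 2) := by
    rw [h2]
    calc (Real.exp 1 ^ ω) ^ Real.log 2 ≤
        (B * (j : ℝ) ^ (a * (Real.exp 1 - 1) + 1 + η)) ^ Real.log 2 :=
          Real.rpow_le_rpow (by positivity) h1 l0.le
      _ = B ^ Real.log 2 * (j : ℝ) ^ ((a * (Real.exp 1 - 1) + 1 + η) * Real.log 2) := by
          rw [Real.mul_rpow (by linarith) (by positivity), ← Real.rpow_mul hj0.le]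
      _ ≤ B * (j : ℝ) ^ ((a * (Real.exp 1 - 1) + 1 + η) * Real.log 2) := by
          apply mul_le_mul_of_nonneg_right _ (by positivity)
          calc B ^ Real.log 2 ≤ B ^ (1 : ℝ) := Real.rpow_le_rpow_of_exponent_le hB l1.le
            _ = B := Real.rpow_one B
  calc (j.divisors.card : ℝ) * 2 ^ ω ≤
      (D * (j : ℝ) ^ η) * (B * (j : ℝ) ^ ((a * (Real.exp 1 - 1) + 1 + η) * Real.log 2)) := by
        apply mul_le_mul (hdiv j hj1) h3 (by positivity) (by positivity)
    _ = D * B * (j : ℝ) ^ (η + (a * (Real.exp 1 - 1) + 1 + η) * Real.log 2) := by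
        rw [Real.rpow_add hj0]; ring
    _ ≤ D * B * (j : ℝ) ^ (Real.exp 1 * Real.log 2 + ε) := by
        apply mul_le_mul_of_nonneg_left _ (by positivity)
        apply Real.rpow_le_rpow_of_exponent_le hjone
        nlinarith

/-- second consequence -/
theorem cons_b {a η ε B D : ℝ} (ha : 1 < a) (hη : 0 < η) (hη1 : η ≤ 1) (hε : 0 < ε) (hD : 1 ≤ D)
    (hexp : (a - 1) * (1 / Real.log 2 - 1) + 2 * η ≤ ε)
    (hdiv : ∀ n : ℕ, 1 ≤ n → (n.divisors.card : ℝ) ≤ D * (n : ℝ) ^ η)
    {g k t y : ℕ} (hy : y ≤ k) (hB : 1 ≤ B)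
    (h : Phi a η (1 / Real.log 2 - 1) g k t ≤ B) :
    (((Ico 1 y).filter (fun j => j + 2 < j.divisors.card * 2 ^ (LL g j t).primeFactors.card)).card : ℝ) ≤
      D * B * (y : ℝ) ^ (theta + ε) := by
  obtain ⟨l0, l1, l2⟩ := log_two_bds
  set lam : ℝ := -Real.log (Real.log 2) / Real.log 2 with hlam
  have hlog2neg : Real.log (Real.log 2) < 0 := Real.log_neg l0 l1
  have hlam0 : 0 < lam := by rw [hlam]; apply div_pos (by linarith) l0
  have hlam1 : lam ≤ 1 := by
    rw [hlam, div_le_one l0]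
    have h3 : -Real.log 2 ≤ Real.log (Real.log 2) := by
      rw [← Real.log_inv]
      apply Real.log_le_log (by norm_num)
      have : (2 : ℝ)⁻¹ = 1 / 2 := by norm_num
      rw [this]; exact l2.le
    linarith
  have hv : 0 < 1 / Real.log 2 - 1 := by
    rw [sub_pos, lt_div_iff₀ l0]; linarith
  have hth : theta = 1 / Real.log 2 - lam := by
    unfold theta; rw [hlam]; ring
  set s : ℝ := a * (1 / Real.log 2 - 1) + 1 + η - lam * (1 - η) with hs
  have hs1 : s ≤ theta + ε := by
    rw [hth, hs]; nlinarith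
  have hs0 : 0 ≤ s := by
    rw [hs]
    nlinarith
  have hpart := part_le (s := s) hv hy h hs0
    (fun j => if j + 2 < j.divisors.card * 2 ^ (LL g j t).primeFactors.card then 1 / D else 0) ?_
  · rcases Nat.eq_zero_or_pos y with hy0 | hy0
    · subst hy0
      simp
      positivity
    · have hy1 : (1 : ℝ) ≤ y := by exact_mod_cast hy0
      rw [← Finset.sum_filter, Finset.sum_const, nsmul_eq_mul, mul_one_div,
        div_le_iff₀ (by linarith)] at hpart
      calc _ ≤ _ := hpart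
        _ = D * B * (y : ℝ) ^ s := by ring
        _ ≤ D * B * (y : ℝ) ^ (theta + ε) := by
          apply mul_le_mul_of_nonneg_left _ (by positivity)
          exact Real.rpow_le_rpow_of_exponent_le hy1 hs1
  · intro j hj
    have hj1 := (mem_Ico.1 hj).1
    have hj0 : (0 : ℝ) < j := by exact_mod_cast hj1
    set ω := (LL g j t).primeFactors.card with hω
    have e1 : 1 + (1 / Real.log 2 - 1) = 1 / Real.log 2 := by ring
    rw [e1]
    split_ifs with hbad
    · have h1 : (j : ℝ) ≤ D * (j : ℝ) ^ η * 2 ^ ω := by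
        have h2 : (j : ℝ) ≤ ((j.divisors.card * 2 ^ ω : ℕ) : ℝ) := by exact_mod_cast (by omega)
        push_cast at h2
        refine h2.trans ?_
        exact mul_le_mul_of_nonneg_right (hdiv j hj1) (by positivity)
      have h2 : (j : ℝ) ^ (1 - η) ≤ D * 2 ^ ω := by
        rw [Real.rpow_sub hj0, Real.rpow_one, div_le_iff₀ (by positivity)]
        linarith
      have h3 : ((j : ℝ) ^ (1 - η)) ^ lam ≤ (D * 2 ^ ω) ^ lam :=
        Real.rpow_le_rpow (by positivity) h2 hlam0.le
      have h4 : ((2 : ℝ) ^ ω) ^ lam = (1 / Real.log 2) ^ ω := by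
        rw [← Real.rpow_natCast, ← Real.rpow_mul (by norm_num), mul_comm, Real.rpow_mul (by norm_num),
          Real.rpow_natCast]
        congr 1
        rw [Real.rpow_def_of_pos (by norm_num), hlam]
        have e2 : Real.log 2 * (-Real.log (Real.log 2) / Real.log 2) = -Real.log (Real.log 2) := by
          field_simp
        rw [e2, Real.exp_neg, Real.exp_log l0, one_div]
      have h5 : D ^ lam ≤ D := by
        calc D ^ lam ≤ D ^ (1 : ℝ) := Real.rpow_le_rpow_of_exponent_le hD hlam1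
          _ = D := Real.rpow_one D
      have h6 : (j : ℝ) ^ ((1 - η) * lam) ≤ D * (1 / Real.log 2) ^ ω := by
        rw [Real.rpow_mul hj0.le]
        refine h3.trans ?_
        rw [Real.mul_rpow (by linarith) (by positivity), h4]
        exact mul_le_mul_of_nonneg_right h5 (by positivity)
      have h7 : (j : ℝ) ^ s * ((1 / Real.log 2) ^ ω / (j : ℝ) ^ (a * (1 / Real.log 2 - 1) + 1 + η)) =
          (1 / Real.log 2) ^ ω / (j : ℝ) ^ ((1 - η) * lam) := by
        have h8 : s = (a * (1 / Real.log 2 - 1) + 1 + η) - (1 - η) * lam := by rw [hs]; ring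
        rw [h8, Real.rpow_sub hj0]
        field_simp
      rw [h7, div_le_div_iff₀ (by linarith) (by positivity)]
      linarith
    · positivity

/-- third consequence -/
theorem cons_c {a η ε B D : ℝ} (ha : 1 < a) (hη : 0 < η) (hD : 1 ≤ D)
    (hexp : (a - 1) + 2 * η ≤ ε)
    (hdiv : ∀ n : ℕ, 1 ≤ n → (n.divisors.card : ℝ) ≤ D * (n : ℝ) ^ η)
    {g k t y : ℕ} (hy : y ≤ k) (hB : 1 ≤ B)
    (h : Phi a η 1 g k t ≤ B) :
    ∑ j ∈ Ico 1 y, (j.divisors.card : ℝ) * 2 ^ (LL g j t).primeFactors.card ≤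
      D * B * (y : ℝ) ^ (2 + ε) := by
  have hpart := part_le (s := a + 1 + 2 * η) one_pos hy h (by linarith)
    (fun j => (j.divisors.card : ℝ) * 2 ^ (LL g j t).primeFactors.card / D) ?_
  · rcases Nat.eq_zero_or_pos y with hy0 | hy0
    · subst hy0
      simp
      positivity
    · have hy1 : (1 : ℝ) ≤ y := by exact_mod_cast hy0
      rw [← Finset.sum_div, div_le_iff₀ (by linarith)] at hpart
      calc _ ≤ _ := hpart
        _ = D * B * (y : ℝ) ^ (a + 1 + 2 * η) := by ring
        _ ≤ D * B * (y : ℝ) ^ (2 + ε) := by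
          apply mul_le_mul_of_nonneg_left _ (by positivity)
          exact Real.rpow_le_rpow_of_exponent_le hy1 (by linarith)
  · intro j hj
    have hj1 := (mem_Ico.1 hj).1
    have hj0 : (0 : ℝ) < j := by exact_mod_cast hj1
    have e1 : (1 : ℝ) + 1 = 2 := by norm_num
    rw [e1]
    have h7 : (j : ℝ) ^ (a + 1 + 2 * η) *
        ((2 : ℝ) ^ (LL g j t).primeFactors.card / (j : ℝ) ^ (a * 1 + 1 + η)) =
        (j : ℝ) ^ η * 2 ^ (LL g j t).primeFactors.card := by
      have h8 : a + 1 + 2 * η = (a * 1 + 1 + η) + η := by ring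
      rw [h8, Real.rpow_add hj0]
      field_simp
    rw [h7, div_le_iff₀ (by linarith)]
    have := mul_le_mul_of_nonneg_right (hdiv j hj1)
      (by positivity : (0 : ℝ) ≤ 2 ^ (LL g j t).primeFactors.card)
    linarith

/-- the main theorem in terms of `n` -/
theorem main_thm (ε : ℝ) (hε : 0 < ε) : ∃ C : ℝ, ∀ k : ℕ, {n : ℕ |
    (∀ j : ℕ, 1 ≤ j → j < k →
      ((n - j).divisors.card : ℝ) ≤ C * (j : ℝ) ^ (Real.exp 1 * Real.log 2 + ε)) ∧
    (∀ y : ℕ, 1 ≤ y → y ≤ k →
      (((Finset.Ico 1 y).filter (fun j => j + 2 < (n - j).divisors.card)).card : ℝ) ≤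
        C * (y : ℝ) ^ ((1 + Real.log (Real.log 2)) / Real.log 2 + ε)) ∧
    (∀ y : ℕ, 1 ≤ y → y ≤ k →
      ∑ j ∈ Finset.Ico 1 y, ((n - j).divisors.card : ℝ) ≤ C * (y : ℝ) ^ (2 + ε))}.Infinite := by
  obtain ⟨l0, l1, l2⟩ := log_two_bds
  have he1 : (2 : ℝ) < Real.exp 1 := by have := Real.exp_one_gt_d9; linarith
  have he2 : Real.exp 1 < 2.72 := by have := Real.exp_one_lt_d9; linarith
  -- parameters
  set δ : ℝ := min 1 (ε / 8) with hδ
  have hδ0 : 0 < δ := by rw [hδ]; positivity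
  have hδ1 : δ ≤ 1 := min_le_left _ _
  have hδ2 : δ ≤ ε / 8 := min_le_right _ _
  set a : ℝ := 1 + δ with ha
  have ha1 : 1 < a := by linarith
  have ha2 : a ≤ 2 := by linarith
  obtain ⟨D, hD, hdiv⟩ := Pool.Agent.Lib.helper69.card_divisors_le_rpow δ hδ0
  obtain ⟨K, hK⟩ := exists_nat_ge (max 2 (32 * ∑' i, lev a i))
  have hK2 : 2 ≤ K := by
    have : (2 : ℝ) ≤ K := (le_max_left _ _).trans hK
    exact_mod_cast this
  have hKlev : 32 * ∑' i, lev a i ≤ K := (le_max_right _ _).trans hK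
  set S : Finset ℝ := {Real.exp 1 - 1, 1 / Real.log 2 - 1, 1} with hS
  have hl0 : 0 < 1 / Real.log 2 - 1 := by
    rw [sub_pos, lt_div_iff₀ l0]; linarith
  have hSprop : ∀ v ∈ S, 0 < v ∧ 4 / 3 * (v / (1 + v)) < 1 := by
    intro v hv
    rw [hS] at hv
    simp only [mem_insert, mem_singleton] at hv
    rcases hv with rfl | rfl | rfl
    · refine ⟨by linarith, ?_⟩
      have e1 : 1 + (Real.exp 1 - 1) = Real.exp 1 := by ring
      rw [e1, mul_div_assoc', div_lt_one (by linarith)]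
      linarith
    · refine ⟨hl0, ?_⟩
      have e1 : 1 + (1 / Real.log 2 - 1) = 1 / Real.log 2 := by ring
      have e2 : (1 / Real.log 2 - 1) / (1 / Real.log 2) = 1 - Real.log 2 := by
        field_simp
      rw [e1, e2]
      linarith
    · norm_num
  set B : ℝ := 1 + ∑ v ∈ S, 12 * (S.card + 1) * CC δ v K with hB
  have hterm : ∀ v ∈ S, 0 ≤ 12 * ((S.card : ℝ) + 1) * CC δ v K := by
    intro v hv
    have := CC_pos (η := δ) (hSprop v hv).1 (hSprop v hv).2 K
    positivity
  have hB1 : 1 ≤ B := by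
    rw [hB]
    have := Finset.sum_nonneg hterm
    linarith
  have hBv : ∀ v ∈ S, 12 * ((S.card : ℝ) + 1) * CC δ v K ≤ B := by
    intro v hv
    rw [hB]
    have := Finset.single_le_sum hterm hv
    linarith
  refine ⟨D * B, fun k => ?_⟩
  -- reduction to k at least one
  set k' := max k 1 with hk'
  have hk1 : 1 ≤ k' := le_max_right _ _
  have hkk : k ≤ k' := le_max_left _ _
  set g := 9 * k' with hg
  have hpar : Par a g k' (MM g) := par_mk ha1 ha2 hk1 le_rfl
  apply Set.infinite_of_forall_exists_gt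
  intro N
  obtain ⟨E, ⟨hb, hb2, hb3⟩, hEN⟩ := ((cond_large (g := g) ha1 ha2 hk1 hK2 hKlev).and
    (eventually_ge_atTop N)).exists
  obtain ⟨t, ht, hsq, hphi⟩ := exists_t hδ0 S hSprop hpar hb hb2 hb3
  have ht' := mem_ivl.1 ht
  have hXE : E < XX K E := by
    unfold XX
    calc E < 2 ^ E := Nat.lt_two_pow_self
      _ ≤ 2 ^ (K * E) := Nat.pow_le_pow_right (by norm_num) (Nat.le_mul_of_pos_left E (by omega))
  have ht1 : 1 ≤ t := by omega
  refine ⟨MM g * t, ?_, ?_⟩
  · have hpa := (hphi (Real.exp 1 - 1) (by rw [hS]; simp)).trans (hBv _ (by rw [hS]; simp))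
    have hpb := (hphi (1 / Real.log 2 - 1) (by rw [hS]; simp)).trans (hBv _ (by rw [hS]; simp))
    have hpc := (hphi 1 (by rw [hS]; simp)).trans (hBv _ (by rw [hS]; simp))
    have hform : ∀ j ∈ Ico 1 k', (MM g * t - j).divisors.card =
        j.divisors.card * 2 ^ (LL g j t).primeFactors.card := by
      intro j hj
      obtain ⟨h1, h2⟩ := j_le (g := g) le_rfl hj
      exact card_divisors_form h1 h2 ht1 (hsq j hj)
    refine ⟨?_, ?_, ?_⟩
    · intro j hj1 hj2
      have hj : j ∈ Ico 1 k' := mem_Ico.2 ⟨hj1, by omega⟩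
      rw [hform j hj]
      push_cast
      apply cons_a ha1 hδ0 hD _ hdiv hj hB1 hpa
      have e : a - 1 = δ := by rw [ha]; ring
      rw [e]
      have h3 : (Real.exp 1 - 1) * Real.log 2 ≤ 1.72 * 1 :=
        mul_le_mul (by linarith) l1.le l0.le (by norm_num)
      nlinarith
    · intro y hy1 hyk
      have h3 : ((Finset.Ico 1 y).filter (fun j => j + 2 < (MM g * t - j).divisors.card)) =
          (Ico 1 y).filter (fun j => j + 2 < j.divisors.card * 2 ^ (LL g j t).primeFactors.card) := by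
        apply Finset.filter_congr
        intro j hj
        rw [mem_Ico] at hj
        rw [hform j (mem_Ico.2 ⟨hj.1, by omega⟩)]
      rw [h3]
      apply cons_b ha1 hδ0 hδ1 hε hD _ hdiv (hyk.trans hkk) hB1 hpb
      have e : a - 1 = δ := by rw [ha]; ring
      rw [e]
      have h4 : 1 / Real.log 2 - 1 ≤ 1 := by
        have : 1 / Real.log 2 ≤ 2 := by
          rw [div_le_iff₀ l0]; linarith
        linarith
      nlinarith
    · intro y hy1 hyk
      have h3 : ∑ j ∈ Finset.Ico 1 y, ((MM g * t - j).divisors.card : ℝ) =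
          ∑ j ∈ Ico 1 y, (j.divisors.card : ℝ) * 2 ^ (LL g j t).primeFactors.card := by
        apply Finset.sum_congr rfl
        intro j hj
        rw [mem_Ico] at hj
        rw [hform j (mem_Ico.2 ⟨hj.1, by omega⟩)]
        push_cast
        ring
      rw [h3]
      apply cons_c ha1 hδ0 hD _ hdiv (hyk.trans hkk) hB1 hpc
      have e : a - 1 = δ := by rw [ha]; ring
      rw [e]
      linarith
  · calc N ≤ E := hEN
      _ < XX K E := hXE
      _ < t := ht'.1
      _ ≤ MM g * t := Nat.le_mul_of_pos_left t (MM_pos g)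

end Pool.Agent.MP_f32cb9_nt
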