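import Pool.Agent.MP_f32cb9_nt.Forms

set_option autoImplicit false

open Finset

namespace Pool.Agent.MP_f32cb9_nt

theorem sum_pow_card {ι : Type*} (v : ℝ) (P : Finset ι) :
    ∑ D ∈ P.powerset, v ^ D.card = (1 + v) ^ P.card := by
  have h := Finset.sum_pow_mul_eq_add_pow v 1 P
  simp only [one_pow, mul_one] at h
  rw [h, add_comm]

theorem sum_pow_weight {ι : Type*} (v : ℝ) (hv : 0 < v) (w : ι → ℝ) (P : Finset ι) :
    ∑ D ∈ P.powerset, v ^ D.card * ∑ p ∈ D, w p =
      v / (1 + v) * (1 + v) ^ P.card * ∑ p ∈ P, w p := by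
  classical
  have hv1 : (1 + v) ≠ 0 := by positivity
  induction P using Finset.induction_on with
  | empty => simp
  | insert j P hj ih =>
    rw [Finset.sum_powerset_insert hj]
    have h1 : ∑ D ∈ P.powerset, v ^ (insert j D).card * ∑ p ∈ insert j D, w p =
        ∑ D ∈ P.powerset, (v * w j * v ^ D.card + v * (v ^ D.card * ∑ p ∈ D, w p)) := by
      apply Finset.sum_congr rfl
      intro D hD
      have hjD : j ∉ D := fun h => hj ((mem_powerset.1 hD) h)
      rw [Finset.card_insert_of_notMem hjD, Finset.sum_insert hjD]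
      ring
    rw [h1, Finset.sum_add_distrib, ← Finset.mul_sum, ← Finset.mul_sum, ih, sum_pow_card,
      Finset.card_insert_of_notMem hj, Finset.sum_insert hj]
    field_simp
    ring

theorem moment (v : ℝ) (hv : 0 < v) (m : ℕ) (hm : 1 ≤ m) :
    (1 - 4 / 3 * (v / (1 + v))) * (1 + v) ^ m.primeFactors.card ≤
      ∑ D ∈ m.primeFactors.powerset.filter (fun D => (∏ p ∈ D, p) ^ 4 ≤ m ^ 3), v ^ D.card := by
  classical
  set P := m.primeFactors with hP
  have hρ : 0 ≤ v / (1 + v) := by positivity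
  rcases Nat.eq_or_lt_of_le hm with h1 | h1
  · have hP0 : P = ∅ := by rw [hP, ← h1]; simp
    rw [hP0]
    have : ((∅ : Finset ℕ).powerset.filter (fun D => (∏ p ∈ D, p) ^ 4 ≤ m ^ 3)) = {∅} := by
      ext D
      simp only [Finset.mem_filter, mem_powerset, subset_empty, mem_singleton]
      constructor
      · rintro ⟨h, _⟩; exact h
      · intro h; subst h; refine ⟨rfl, ?_⟩; rw [← h1]; simp
    rw [this]
    simp
    positivity
  · have hlog : 0 < Real.log m := Real.log_pos (by exact_mod_cast h1)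
    have h2 := Finset.sum_filter_add_sum_filter_not P.powerset (fun D => (∏ p ∈ D, p) ^ 4 ≤ m ^ 3)
      (fun D => v ^ D.card)
    rw [sum_pow_card] at h2
    have h3 : 3 * Real.log m * ∑ D ∈ P.powerset.filter (fun D => ¬ (∏ p ∈ D, p) ^ 4 ≤ m ^ 3), v ^ D.card ≤
        4 * (v / (1 + v) * (1 + v) ^ P.card * Real.log m) := by
      calc 3 * Real.log m * ∑ D ∈ P.powerset.filter (fun D => ¬ (∏ p ∈ D, p) ^ 4 ≤ m ^ 3), v ^ D.card
          = ∑ D ∈ P.powerset.filter (fun D => ¬ (∏ p ∈ D, p) ^ 4 ≤ m ^ 3), v ^ D.card * (3 * Real.log m) := by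
            rw [Finset.mul_sum]; apply Finset.sum_congr rfl; intro D _; ring
        _ ≤ ∑ D ∈ P.powerset.filter (fun D => ¬ (∏ p ∈ D, p) ^ 4 ≤ m ^ 3),
            v ^ D.card * (4 * ∑ p ∈ D, Real.log p) := by
            apply Finset.sum_le_sum
            intro D hD
            obtain ⟨hD1, hD2⟩ := Finset.mem_filter.1 hD
            apply mul_le_mul_of_nonneg_left _ (by positivity)
            have h4 : m ^ 3 ≤ (∏ p ∈ D, p) ^ 4 := by omega
            have h5 : ((m : ℝ)) ^ 3 ≤ ((∏ p ∈ D, p : ℕ) : ℝ) ^ 4 := by exact_mod_cast h4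
            have h6 := Real.log_le_log (by positivity) h5
            rw [Real.log_pow, Real.log_pow] at h6
            have h7 : Real.log ((∏ p ∈ D, p : ℕ) : ℝ) = ∑ p ∈ D, Real.log p := by
              push_cast
              apply Real.log_prod
              intro p hp
              have := (Nat.prime_of_mem_primeFactors ((mem_powerset.1 hD1) hp)).pos
              positivity
            rw [h7] at h6
            exact_mod_cast h6
        _ ≤ ∑ D ∈ P.powerset, v ^ D.card * (4 * ∑ p ∈ D, Real.log p) := by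
            apply Finset.sum_le_sum_of_subset_of_nonneg (Finset.filter_subset _ _)
            intro D hD _
            have : 0 ≤ ∑ p ∈ D, Real.log p := Finset.sum_nonneg fun p hp => Real.log_natCast_nonneg p
            positivity
        _ = 4 * (v / (1 + v) * (1 + v) ^ P.card * ∑ p ∈ P, Real.log p) := by
            rw [← sum_pow_weight v hv (fun p : ℕ => Real.log (p : ℝ)), Finset.mul_sum]
            apply Finset.sum_congr rfl; intro D _; ring
        _ ≤ _ := by
            have h8 : ∑ p ∈ P, Real.log p ≤ Real.log m := by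
              have h9 : Real.log ((∏ p ∈ P, p : ℕ) : ℝ) = ∑ p ∈ P, Real.log p := by
                push_cast
                apply Real.log_prod
                intro p hp
                have := (Nat.prime_of_mem_primeFactors hp).pos
                positivity
              rw [← h9]
              apply Real.log_le_log
              · have : 0 < ∏ p ∈ P, p := Finset.prod_pos fun p hp => (Nat.prime_of_mem_primeFactors hp).pos
                exact_mod_cast this
              · exact_mod_cast Nat.le_of_dvd (by omega) (Nat.prod_primeFactors_dvd m)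
            gcongr
    have h4 : ∑ D ∈ P.powerset.filter (fun D => ¬ (∏ p ∈ D, p) ^ 4 ≤ m ^ 3), v ^ D.card ≤
        4 / 3 * (v / (1 + v)) * (1 + v) ^ P.card := by
      by_contra hcon
      rw [not_le] at hcon
      have := mul_lt_mul_of_pos_left hcon (by positivity : 0 < 3 * Real.log m)
      nlinarith
    linarith

/-- further conditions on the size of `E` -/
structure Big2 (a : ℝ) (g k K E : ℕ) : Prop where
  K2 : 2 ≤ K
  E1 : 1 ≤ E
  c4 : (2 * (MM g : ℝ)) ^ 3 ≤ (2 : ℝ) ^ (((K * E : ℕ) : ℝ) / 5)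

theorem LL_le {g j t K E : ℕ} (ht : t ∈ ivl (XX K E) (XX K E)) :
    (LL g j t : ℝ) ≤ 2 * MM g * XX K E := by
  rw [mem_ivl] at ht
  have h1 : LL g j t ≤ MM g * (XX K E + XX K E) := by
    unfold LL
    calc MM g / j * t - 1 ≤ MM g / j * t := Nat.sub_le _ _
      _ ≤ MM g * (XX K E + XX K E) := Nat.mul_le_mul (Nat.div_le_self _ _) ht.2
  have h2 : (LL g j t : ℝ) ≤ ((MM g * (XX K E + XX K E) : ℕ) : ℝ) := by exact_mod_cast h1
  push_cast at h2
  linarith

theorem XX_rpow (K E : ℕ) : (XX K E : ℝ) = (2 : ℝ) ^ ((K * E : ℕ) : ℝ) := by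
  rw [Real.rpow_natCast]; unfold XX; push_cast; rfl

theorem prod_small {a : ℝ} {g k j t K E P : ℕ} (h2 : Big2 a g k K E)
    (ht : t ∈ ivl (XX K E) (XX K E)) (hP : P ^ 4 ≤ (LL g j t) ^ 3) :
    (P : ℝ) ≤ (2 : ℝ) ^ (4 * ((K * E : ℕ) : ℝ) / 5) := by
  have h3 := LL_le (g := g) (j := j) ht
  have h4 : (P : ℝ) ^ 4 ≤ (LL g j t : ℝ) ^ 3 := by exact_mod_cast hP
  have h5 : (LL g j t : ℝ) ^ 3 ≤ (2 * MM g * XX K E) ^ 3 := by gcongr
  have h6 : (2 * (MM g : ℝ) * XX K E) ^ 3 ≤ ((2 : ℝ) ^ (4 * ((K * E : ℕ) : ℝ) / 5)) ^ 4 := by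
    calc (2 * (MM g : ℝ) * XX K E) ^ 3 = (2 * (MM g : ℝ)) ^ 3 * (XX K E : ℝ) ^ 3 := by ring
      _ ≤ (2 : ℝ) ^ (((K * E : ℕ) : ℝ) / 5) * (XX K E : ℝ) ^ 3 := by
          have := h2.c4
          gcongr
      _ = ((2 : ℝ) ^ (4 * ((K * E : ℕ) : ℝ) / 5)) ^ 4 := by
          rw [XX_rpow, ← Real.rpow_natCast ((2 : ℝ) ^ ((K * E : ℕ) : ℝ)) 3, ← Real.rpow_mul (by norm_num),
            ← Real.rpow_natCast ((2 : ℝ) ^ (4 * ((K * E : ℕ) : ℝ) / 5)) 4, ← Real.rpow_mul (by norm_num),
            ← Real.rpow_add (by norm_num)]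
          congr 1
          push_cast
          ring
  have h7 : (P : ℝ) ^ 4 ≤ ((2 : ℝ) ^ (4 * ((K * E : ℕ) : ℝ) / 5)) ^ 4 := h4.trans (h5.trans h6)
  exact (pow_le_pow_iff_left₀ (by positivity) (by positivity) (by norm_num)).1 h7

/-- sum over square-free divisors -/
theorem moment_sum {a : ℝ} {E g k K : ℕ} (h : Par a g k (MM g)) (hb : Big a g k (MM g) K E)
    (h2 : Big2 a g k K E) {j : ℕ} (hj : j ∈ Ico 1 k) (v : ℝ) (hv : 0 < v) :
    (1 - 4 / 3 * (v / (1 + v))) *
      ∑ t ∈ ivl (XX K E) (XX K E), ch a E g k t * (1 + v) ^ (LL g j t).primeFactors.card ≤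
    4 * (XX K E : ℝ) * V a E g k (MM g) *
      ∏ p ∈ PI (2 ^ ee a E (j - 1)) (XX K E), (1 + v / p) := by
  classical
  obtain ⟨hj1, hj2⟩ := j_le h.g9 hj
  have hX1 : 1 ≤ XX K E := Nat.one_le_two_pow
  set I := ivl (XX K E) (XX K E) with hI
  set Q := PI (2 ^ ee a E (j - 1)) (XX K E) with hQ
  set Q' := Q.powerset.filter (fun D => ((∏ p ∈ D, p : ℕ) : ℝ) ≤ (2 : ℝ) ^ (4 * ((K * E : ℕ) : ℝ) / 5)) with hQ'
  have hVpos := V_pos (E := E) h
  rw [Finset.mul_sum]
  calc ∑ t ∈ I, (1 - 4 / 3 * (v / (1 + v))) * (ch a E g k t * (1 + v) ^ (LL g j t).primeFactors.card)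
      ≤ ∑ t ∈ I, ∑ D ∈ Q', (if (∏ p ∈ D, p) ∣ LL g j t then v ^ D.card * ch a E g k t else 0) := by
        apply Finset.sum_le_sum
        intro t ht
        have ht' := mem_ivl.1 ht
        rcases ch_zero_or_one a E g k t with h0 | h0
        · rw [h0]; simp
        · rw [h0, one_mul]
          have h3 := moment v hv (LL g j t) (LL_pos hj1 hj2 (by omega))
          refine h3.trans ?_
          rw [← Finset.sum_filter]
          simp only [mul_one]
          apply Finset.sum_le_sum_of_subset_of_nonneg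
          · intro D hD
            obtain ⟨hD1, hD2⟩ := Finset.mem_filter.1 hD
            have hDP := mem_powerset.1 hD1
            have hsm := prod_small h2 ht hD2
            refine Finset.mem_filter.2 ⟨Finset.mem_filter.2 ⟨mem_powerset.2 ?_, hsm⟩, ?_⟩
            · intro p hp
              have hpp := Nat.mem_primeFactors.1 (hDP hp)
              rw [hQ, mem_PI]
              refine ⟨rough_LL h.a1 h.g9 hj (by omega) (by rw [h0]; norm_num) p hpp.1 hpp.2.1, ?_, hpp.1⟩
              have h4 : p ≤ ∏ q ∈ D, q := by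
                apply Nat.le_of_dvd
                · exact Finset.prod_pos fun q hq => (Nat.prime_of_mem_primeFactors (hDP hq)).pos
                · exact Finset.dvd_prod_of_mem _ hp
              have h5 : (p : ℝ) ≤ XX K E := by
                have h6 : (p : ℝ) ≤ ((∏ q ∈ D, q : ℕ) : ℝ) := by exact_mod_cast h4
                refine h6.trans (hsm.trans ?_)
                rw [XX_rpow]
                apply Real.rpow_le_rpow_of_exponent_le (by norm_num)
                have : (0 : ℝ) ≤ ((K * E : ℕ) : ℝ) := Nat.cast_nonneg _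
                linarith
              exact_mod_cast h5
            · apply Finset.prod_primes_dvd
              · intro p hp
                exact (Nat.prime_of_mem_primeFactors (hDP hp)).prime
              · intro p hp
                exact Nat.dvd_of_mem_primeFactors (hDP hp)
          · intro D _ _
            positivity
    _ = ∑ D ∈ Q', v ^ D.card * ∑ t ∈ I.filter (fun t => (∏ p ∈ D, p) ∣ LL g j t), ch a E g k t := by
        rw [Finset.sum_comm]
        apply Finset.sum_congr rfl
        intro D _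
        rw [← Finset.sum_filter, Finset.mul_sum]
    _ ≤ ∑ D ∈ Q', v ^ D.card * (4 * (XX K E : ℝ) * V a E g k (MM g) / (∏ p ∈ D, p : ℕ)) := by
        apply Finset.sum_le_sum
        intro D hD
        obtain ⟨hD1, hD2⟩ := Finset.mem_filter.1 hD
        apply mul_le_mul_of_nonneg_left _ (by positivity)
        apply upper_dvd h hb hj _ hD2
        apply Finset.prod_pos
        intro p hp
        exact (mem_PI.1 ((mem_powerset.1 hD1) hp)).2.2.pos
    _ ≤ ∑ D ∈ Q.powerset, v ^ D.card * (4 * (XX K E : ℝ) * V a E g k (MM g) / (∏ p ∈ D, p : ℕ)) := by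
        apply Finset.sum_le_sum_of_subset_of_nonneg (Finset.filter_subset _ _)
        intro D _ _
        positivity
    _ = 4 * (XX K E : ℝ) * V a E g k (MM g) * ∏ p ∈ Q, (1 + v / p) := by
        rw [Finset.prod_one_add, Finset.mul_sum]
        apply Finset.sum_congr rfl
        intro D _
        rw [Finset.prod_div_distrib, Finset.prod_const]
        push_cast
        ring

/-- explicit moment bound -/
theorem moment_bound {a : ℝ} {E g k K : ℕ} (h : Par a g k (MM g)) (hb : Big a g k (MM g) K E)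
    (h2 : Big2 a g k K E) {j : ℕ} (hj : j ∈ Ico 1 k) (v : ℝ) (hv : 0 < v) :
    (1 - 4 / 3 * (v / (1 + v))) *
      ∑ t ∈ ivl (XX K E) (XX K E), ch a E g k t * (1 + v) ^ (LL g j t).primeFactors.card ≤
    4 * Real.exp (8 * v) * (K : ℝ) ^ v * (j : ℝ) ^ (a * v) * ((XX K E : ℝ) * V a E g k (MM g)) := by
  have h3 := moment_sum h hb h2 hj v hv
  refine h3.trans ?_
  have hVpos := V_pos (E := E) h
  have hj1 := (mem_Ico.1 hj).1
  have hj0 : (0 : ℝ) < j := by exact_mod_cast hj1
  have hE0 : (0 : ℝ) < E := by exact_mod_cast h2.E1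
  have hK0 : (0 : ℝ) < K := by exact_mod_cast (by have := h2.K2; omega : 0 < K)
  have he1 := one_le_ee a E (j - 1)
  have he0 : (0 : ℝ) < ee a E (j - 1) := by exact_mod_cast he1
  have hja : (0 : ℝ) < (j : ℝ) ^ a := by positivity
  have hcast : ((j - 1 : ℕ) : ℝ) + 1 = j := by
    rw [Nat.cast_sub hj1]; push_cast; ring
  have hege : (E : ℝ) / (j : ℝ) ^ a ≤ ee a E (j - 1) := by
    have := ee_ge a E (j - 1)
    rwa [hcast] at this
  have hle : ee a E (j - 1) ≤ K * E := by
    have h4 : ee a E (j - 1) ≤ ee a E 0 := ee_anti (by linarith [h.a1]) E (Nat.zero_le _)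
    have h5 : ee a E 0 = E + 1 := by
      unfold ee
      simp
    have h6 : 2 * E ≤ K * E := Nat.mul_le_mul_right E h2.K2
    have := h2.E1
    omega
  have hprod : ∏ p ∈ PI (2 ^ ee a E (j - 1)) (XX K E), (1 + v / p) ≤
      Real.exp (8 * v) * ((K : ℝ) * (j : ℝ) ^ a) ^ v := by
    calc ∏ p ∈ PI (2 ^ ee a E (j - 1)) (XX K E), (1 + v / p)
        ≤ ∏ p ∈ PI (2 ^ ee a E (j - 1)) (XX K E), Real.exp (v * (1 / p)) := by
          apply Finset.prod_le_prod
          · intro p _; positivity
          · intro p _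
            have := Real.add_one_le_exp (v * (1 / p))
            have e : v * (1 / (p : ℝ)) = v / p := by ring
            rw [e] at this
            rw [e]
            linarith
      _ = Real.exp (v * ∑ p ∈ PI (2 ^ ee a E (j - 1)) (XX K E), (1 : ℝ) / p) := by
          rw [← Real.exp_sum, Finset.mul_sum]
      _ ≤ Real.exp (v * (Real.log (((K * E : ℕ) : ℝ) / ee a E (j - 1)) + 8 / ee a E (j - 1))) := by
          apply Real.exp_le_exp.2
          apply mul_le_mul_of_nonneg_left _ hv.le
          exact sum_inv_PI_two he1 hle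
      _ ≤ Real.exp (v * (Real.log ((K : ℝ) * (j : ℝ) ^ a) + 8)) := by
          apply Real.exp_le_exp.2
          apply mul_le_mul_of_nonneg_left _ hv.le
          apply add_le_add
          · apply Real.log_le_log
            · push_cast; positivity
            · rw [div_le_iff₀ he0]
              push_cast
              rw [div_le_iff₀ hja] at hege
              nlinarith [mul_le_mul_of_nonneg_left hege hK0.le]
          · rw [div_le_iff₀ he0]
            have : (1 : ℝ) ≤ ee a E (j - 1) := by exact_mod_cast he1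
            linarith
      _ = _ := by
          rw [mul_add, Real.exp_add, mul_comm (Real.exp (v * _)), mul_comm v 8,
            Real.rpow_def_of_pos (by positivity : (0 : ℝ) < (K : ℝ) * (j : ℝ) ^ a), mul_comm v (Real.log _)]
  have e1 : ((K : ℝ) * (j : ℝ) ^ a) ^ v = (K : ℝ) ^ v * (j : ℝ) ^ (a * v) := by
    rw [Real.mul_rpow hK0.le hja.le, ← Real.rpow_mul hj0.le]
  rw [e1] at hprod
  calc 4 * (XX K E : ℝ) * V a E g k (MM g) * ∏ p ∈ PI (2 ^ ee a E (j - 1)) (XX K E), (1 + v / p)
      ≤ 4 * (XX K E : ℝ) * V a E g k (MM g) * (Real.exp (8 * v) * ((K : ℝ) ^ v * (j : ℝ) ^ (a * v))) := by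
        gcongr
    _ = _ := by ring

end Pool.Agent.MP_f32cb9_nt
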