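import Pool.Agent.Lib.helper94.ANT.Brun

set_option autoImplicit false

open Finset

namespace Pool.Agent.MP_f32cb9_nt

open Pool.Agent.Lib.helper94.ANT (bonS bonS_empty bonS_zero bonS_insert bonferroni)

/-- indicator that `t mod p` lies in `R p` -/
noncomputable def hit (R : ℕ → Finset ℕ) (t p : ℕ) : ℝ := if t % p ∈ R p then 1 else 0

theorem hit_nonneg (R : ℕ → Finset ℕ) (t p : ℕ) : 0 ≤ hit R t p := by
  unfold hit; split_ifs <;> norm_num

theorem hit_le_one (R : ℕ → Finset ℕ) (t p : ℕ) : hit R t p ≤ 1 := by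
  unfold hit; split_ifs <;> norm_num

/-- the interval `(N, N + H]` -/
def ivl (N H : ℕ) : Finset ℕ := Ioc N (N + H)

/-- `G` is equidistributed with mean `A` in all progressions to moduli prime to `P`. -/
def Equi (N H : ℕ) (G : ℕ → ℝ) (A W : ℝ) (P : Finset ℕ) : Prop :=
  ∀ q r : ℕ, 0 < q → (∀ p ∈ P, ¬ p ∣ q) →
    |∑ t ∈ (ivl N H).filter (fun t => t ≡ r [MOD q]), G t - H / q * A| ≤ W

theorem count_ivl (N H q r : ℕ) (hq : 0 < q) :
    |(((ivl N H).filter (fun n => n ≡ r [MOD q])).card : ℝ) - H / q| ≤ 1 := by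
  unfold ivl
  have h2 := Nat.Ioc_filter_modEq_card N (N + H) hq r
  have hq' : (0 : ℚ) < q := by exact_mod_cast hq
  have h3 : ⌊((N : ℚ) - (r : ℚ)) / q⌋ ≤ ⌊(((N + H : ℕ) : ℚ) - r) / q⌋ := by
    apply Int.floor_le_floor
    gcongr
    omega
  rw [max_eq_left (by linarith)] at h2
  have h4 : (((Ioc N (N + H)).filter (fun n => n ≡ r [MOD q])).card : ℚ) =
      (⌊(((N + H : ℕ) : ℚ) - r) / q⌋ : ℚ) - ⌊((N : ℚ) - (r : ℚ)) / q⌋ := by
    exact_mod_cast h2
  have h5 : |(((Ioc N (N + H)).filter (fun n => n ≡ r [MOD q])).card : ℚ) - H / q| ≤ 1 := by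
    rw [h4]
    have e1 := Int.floor_le ((((N + H : ℕ) : ℚ) - r) / q)
    have e2 := Int.lt_floor_add_one ((((N + H : ℕ) : ℚ) - r) / q)
    have e3 := Int.floor_le (((N : ℚ) - (r : ℚ)) / q)
    have e4 := Int.lt_floor_add_one (((N : ℚ) - (r : ℚ)) / q)
    have e5 : (((N + H : ℕ) : ℚ) - r) / q = H / q + ((N : ℚ) - (r : ℚ)) / q := by
      push_cast
      ring
    rw [abs_le]
    constructor <;> linarith
  have h6 : ((|(((Ioc N (N + H)).filter (fun n => n ≡ r [MOD q])).card : ℚ) - H / q| : ℚ) : ℝ) ≤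
      ((1 : ℚ) : ℝ) := by exact_mod_cast h5
  push_cast at h6
  exact h6

theorem equi_one (N H : ℕ) : Equi N H (fun _ => 1) 1 1 ∅ := by
  intro q r hq _
  have h := count_ivl N H q r hq
  simpa using h

theorem Equi.mono {N H : ℕ} {G : ℕ → ℝ} {A W : ℝ} {P : Finset ℕ} (h : Equi N H G A W P)
    {P' : Finset ℕ} (hP : P ⊆ P') {W' : ℝ} (hW : W ≤ W') : Equi N H G A W' P' := by
  intro q r hq hpq
  exact (h q r hq fun p hp => hpq p (hP hp)).trans hW

theorem Equi.congr {N H : ℕ} {G G' : ℕ → ℝ} {A A' W W' : ℝ} {P P' : Finset ℕ}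
    (h : Equi N H G A W P) (hG : ∀ t, G t = G' t) (hA : A = A') (hW : W = W') (hP : P = P') :
    Equi N H G' A' W' P' := by
  have : G = G' := funext hG
  subst this; subst hA; subst hW; subst hP
  exact h

theorem Equi.hit {N H : ℕ} {G : ℕ → ℝ} {A W : ℝ} {P : Finset ℕ} (h : Equi N H G A W P)
    (hP : ∀ p ∈ P, p.Prime) (R : ℕ → Finset ℕ) {p : ℕ} (hp : p.Prime) (hpP : p ∉ P)
    (hR : R p ⊆ range p) :
    Equi N H (fun t => G t * hit R t p) (A * ((R p).card / p)) (W * (R p).card) (insert p P) := by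
  classical
  intro q r hq hpq
  have hcop : Nat.Coprime q p :=
    ((Nat.Prime.coprime_iff_not_dvd hp).2 (hpq p (mem_insert_self p P))).symm
  have hsplit : ∑ t ∈ (ivl N H).filter (fun t => t ≡ r [MOD q]), G t * MP_f32cb9_nt.hit R t p =
      ∑ ρ ∈ R p, ∑ t ∈ (ivl N H).filter
        (fun t => t ≡ (Nat.chineseRemainder hcop r ρ : ℕ) [MOD (q * p)]), G t := by
    have h1 : ∀ ρ ∈ R p, ∑ t ∈ (ivl N H).filter
        (fun t => t ≡ (Nat.chineseRemainder hcop r ρ : ℕ) [MOD (q * p)]), G t =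
        ∑ t ∈ (ivl N H).filter (fun t => t ≡ r [MOD q]), if t % p = ρ then G t else 0 := by
      intro ρ hρ
      rw [← Finset.sum_filter, Finset.filter_filter]
      apply Finset.sum_congr _ (fun _ _ => rfl)
      apply Finset.filter_congr
      intro t _
      have hρp : ρ < p := mem_range.1 (hR hρ)
      have hc := (Nat.chineseRemainder hcop r ρ).2
      rw [← Nat.modEq_and_modEq_iff_modEq_mul hcop]
      constructor
      · rintro ⟨e1, e2⟩
        refine ⟨e1.trans hc.1, ?_⟩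
        have e3 := e2.trans hc.2
        unfold Nat.ModEq at e3
        rw [e3, Nat.mod_eq_of_lt hρp]
      · rintro ⟨e1, e2⟩
        refine ⟨e1.trans hc.1.symm, ?_⟩
        have e3 : t ≡ ρ [MOD p] := by
          unfold Nat.ModEq
          rw [e2, Nat.mod_eq_of_lt hρp]
        exact e3.trans hc.2.symm
    rw [Finset.sum_congr rfl h1, Finset.sum_comm]
    apply Finset.sum_congr rfl
    intro t _
    rw [Finset.sum_ite_eq]
    unfold MP_f32cb9_nt.hit
    split_ifs <;> simp
  rw [hsplit]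
  have hmain : (H : ℝ) / q * (A * ((R p).card / p)) = ∑ ρ ∈ R p, (H : ℝ) / ((q * p : ℕ) : ℝ) * A := by
    rw [Finset.sum_const, nsmul_eq_mul]
    push_cast
    have hp0 : (p : ℝ) ≠ 0 := by exact_mod_cast hp.ne_zero
    have hq0 : (q : ℝ) ≠ 0 := by exact_mod_cast hq.ne'
    field_simp
  rw [hmain, ← Finset.sum_sub_distrib]
  refine (Finset.abs_sum_le_sum_abs _ _).trans ?_
  have hb : ∀ ρ ∈ R p, |∑ t ∈ (ivl N H).filter
        (fun t => t ≡ (Nat.chineseRemainder hcop r ρ : ℕ) [MOD (q * p)]), G t -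
        (H : ℝ) / ((q * p : ℕ) : ℝ) * A| ≤ W := by
    intro ρ _
    apply h (q * p) _ (Nat.mul_pos hq hp.pos)
    intro p' hp' hdvd
    rcases (hP p' hp').dvd_mul.1 hdvd with h1 | h1
    · exact hpq p' (mem_insert_of_mem hp') h1
    · have : p' = p := (Nat.prime_dvd_prime_iff_eq (hP p' hp') hp).1 h1
      exact hpP (this ▸ hp')
  refine (Finset.sum_le_sum hb).trans ?_
  rw [Finset.sum_const, nsmul_eq_mul, mul_comm]

theorem equi_prod {N H : ℕ} {G : ℕ → ℝ} {A W : ℝ} {P : Finset ℕ} (h : Equi N H G A W P)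
    (hP : ∀ p ∈ P, p.Prime) (R : ℕ → Finset ℕ) (Q : Finset ℕ) (hQ : ∀ p ∈ Q, p.Prime)
    (hd : Disjoint P Q) (hR : ∀ p ∈ Q, R p ⊆ range p) :
    Equi N H (fun t => G t * ∏ p ∈ Q, hit R t p) (A * ∏ p ∈ Q, ((R p).card / p : ℝ))
      (W * ∏ p ∈ Q, ((R p).card : ℝ)) (P ∪ Q) := by
  classical
  induction Q using Finset.induction_on with
  | empty =>
    refine h.congr (fun t => by simp) (by simp) (by simp) (by simp)
  | insert p Q hpQ ih =>
    have hQ' : ∀ p ∈ Q, p.Prime := fun x hx => hQ x (mem_insert_of_mem hx)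
    have hd' : Disjoint P Q := hd.mono_right (subset_insert _ _)
    have ih' := ih hQ' hd' fun x hx => hR x (mem_insert_of_mem hx)
    have hpP : p ∉ P := fun hp => (Finset.disjoint_left.1 hd hp) (mem_insert_self _ _)
    have hPQ : ∀ x ∈ P ∪ Q, x.Prime := by
      intro x hx
      rcases mem_union.1 hx with hx | hx
      · exact hP x hx
      · exact hQ' x hx
    have hpPQ : p ∉ P ∪ Q := by
      rw [mem_union]; push Not; exact ⟨hpP, hpQ⟩
    have := ih'.hit hPQ R (hQ p (mem_insert_self _ _)) hpPQ (hR p (mem_insert_self _ _))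
    refine this.congr (fun t => ?_) ?_ ?_ ?_
    · rw [prod_insert hpQ]; ring
    · rw [prod_insert hpQ]; ring
    · rw [prod_insert hpQ]; ring
    · rw [union_insert]

theorem equi_sum {ι : Type*} {N H : ℕ} {P : Finset ℕ} (s : Finset ι) (c : ι → ℝ)
    (G : ι → ℕ → ℝ) (A W : ι → ℝ) (h : ∀ i ∈ s, Equi N H (G i) (A i) (W i) P) :
    Equi N H (fun t => ∑ i ∈ s, c i * G i t) (∑ i ∈ s, c i * A i) (∑ i ∈ s, |c i| * W i) P := by
  intro q r hq hpq
  rw [Finset.sum_comm, Finset.mul_sum, ← Finset.sum_sub_distrib]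
  refine (Finset.abs_sum_le_sum_abs _ _).trans (Finset.sum_le_sum fun i hi => ?_)
  have e : ∑ t ∈ (ivl N H).filter (fun t => t ≡ r [MOD q]), c i * G i t - H / q * (c i * A i) =
      c i * (∑ t ∈ (ivl N H).filter (fun t => t ≡ r [MOD q]), G i t - H / q * A i) := by
    rw [← Finset.mul_sum]; ring
  rw [e, abs_mul]
  exact mul_le_mul_of_nonneg_left (h i hi q r hq hpq) (abs_nonneg _)

/-- weight of the remainder of one block -/
noncomputable def Wt (R : ℕ → Finset ℕ) (k : ℕ) (B : Finset ℕ) : ℝ :=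
  ∑ Q ∈ B.powerset, if Q.card ≤ k then ∏ p ∈ Q, ((R p).card : ℝ) else 0

/-- density weights -/
noncomputable def dens (R : ℕ → Finset ℕ) (p : ℕ) : ℝ := (R p).card / p

theorem Wt_nonneg (R : ℕ → Finset ℕ) (k : ℕ) (B : Finset ℕ) : 0 ≤ Wt R k B := by
  unfold Wt
  apply Finset.sum_nonneg
  intro Q _
  split_ifs
  · positivity
  · exact le_rfl

theorem Wt_mono (R : ℕ → Finset ℕ) {k k' : ℕ} (hk : k ≤ k') {B B' : Finset ℕ} (hB : B ⊆ B') :
    Wt R k B ≤ Wt R k' B' := by
  unfold Wt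
  refine (Finset.sum_le_sum_of_subset_of_nonneg (Finset.powerset_mono.2 hB) ?_).trans
    (Finset.sum_le_sum ?_)
  · intro Q _ _
    split_ifs
    · positivity
    · exact le_rfl
  · intro Q _
    split_ifs
    · exact le_rfl
    · omega
    · positivity
    · exact le_rfl

theorem one_le_Wt (R : ℕ → Finset ℕ) (k : ℕ) (B : Finset ℕ) : 1 ≤ Wt R k B := by
  unfold Wt
  have h := Finset.single_le_sum (f := fun Q : Finset ℕ =>
    if Q.card ≤ k then ∏ p ∈ Q, ((R p).card : ℝ) else 0) (s := B.powerset) (a := ∅)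
    (fun Q _ => by split_ifs <;> positivity) (empty_mem_powerset B)
  simpa using h

theorem equi_bon {N H : ℕ} {G : ℕ → ℝ} {A W : ℝ} {P : Finset ℕ} (h : Equi N H G A W P)
    (hP : ∀ p ∈ P, p.Prime) (R : ℕ → Finset ℕ) (B : Finset ℕ) (hB : ∀ p ∈ B, p.Prime)
    (hd : Disjoint P B) (hR : ∀ p ∈ B, R p ⊆ range p) (k : ℕ) :
    Equi N H (fun t => G t * bonS (hit R t) k B) (A * bonS (dens R) k B)
      (W * Wt R k B) (P ∪ B) := by
  classical
  have h1 : ∀ Q ∈ B.powerset, Equi N H (fun t => G t * ∏ p ∈ Q, hit R t p)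
      (A * ∏ p ∈ Q, ((R p).card / p : ℝ)) (W * ∏ p ∈ Q, ((R p).card : ℝ)) (P ∪ B) := by
    intro Q hQ
    have hQB := mem_powerset.1 hQ
    exact (equi_prod h hP R Q (fun p hp => hB p (hQB hp)) (hd.mono_right hQB)
      (fun p hp => hR p (hQB hp))).mono (union_subset_union_right hQB) le_rfl
  have h2 := equi_sum B.powerset (fun Q => if Q.card ≤ k then (-1 : ℝ) ^ Q.card else 0) _ _ _ h1
  refine (h2.congr (fun t => ?_) ?_ ?_ rfl)
  · unfold bonS
    rw [Finset.mul_sum]
    apply Finset.sum_congr rfl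
    intro Q _
    split_ifs <;> ring
  · unfold bonS dens
    rw [Finset.mul_sum]
    apply Finset.sum_congr rfl
    intro Q _
    split_ifs <;> ring
  · unfold Wt
    rw [Finset.mul_sum]
    apply Finset.sum_congr rfl
    intro Q _
    split_ifs
    · rw [abs_pow, abs_neg, abs_one, one_pow, one_mul]
    · simp

/-- elementary symmetric sum of degree `n` -/
noncomputable def esy {ι : Type*} (w : ι → ℝ) (n : ℕ) (B : Finset ι) : ℝ :=
  ∑ Q ∈ B.powersetCard n, ∏ i ∈ Q, w i

theorem bonS_succ_eq {ι : Type*} (w : ι → ℝ) (k : ℕ) (B : Finset ι) :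
    bonS w (k + 1) B = bonS w k B + (-1) ^ (k + 1) * esy w (k + 1) B := by
  classical
  unfold bonS esy
  rw [Finset.mul_sum]
  have h : B.powersetCard (k + 1) = B.powerset.filter (fun Q => Q.card = k + 1) := by
    ext Q; simp [mem_powersetCard]
  rw [h, Finset.sum_filter, ← Finset.sum_add_distrib]
  apply Finset.sum_congr rfl
  intro Q _
  by_cases h1 : Q.card ≤ k
  · rw [if_pos (by omega), if_pos h1, if_neg (by omega)]; ring
  · by_cases h2 : Q.card = k + 1
    · rw [if_pos (by omega), if_neg h1, if_pos h2, h2]; ring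
    · rw [if_neg (by omega), if_neg h1, if_neg h2]; ring

theorem esy_nonneg {ι : Type*} (w : ι → ℝ) (n : ℕ) (B : Finset ι) (hw : ∀ i ∈ B, 0 ≤ w i) :
    0 ≤ esy w n B := by
  unfold esy
  apply Finset.sum_nonneg
  intro Q hQ
  apply Finset.prod_nonneg
  intro i hi
  exact hw i ((mem_powersetCard.1 hQ).1 hi)

theorem equi_esy {N H : ℕ} {G : ℕ → ℝ} {A W : ℝ} {P : Finset ℕ} (h : Equi N H G A W P)
    (hP : ∀ p ∈ P, p.Prime) (R : ℕ → Finset ℕ) (B : Finset ℕ) (hB : ∀ p ∈ B, p.Prime)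
    (hd : Disjoint P B) (hR : ∀ p ∈ B, R p ⊆ range p) (hW : 0 ≤ W) (n : ℕ) :
    Equi N H (fun t => G t * esy (hit R t) n B) (A * esy (dens R) n B)
      (W * Wt R n B) (P ∪ B) := by
  classical
  have h1 : ∀ Q ∈ B.powersetCard n, Equi N H (fun t => G t * ∏ p ∈ Q, hit R t p)
      (A * ∏ p ∈ Q, ((R p).card / p : ℝ)) (W * ∏ p ∈ Q, ((R p).card : ℝ)) (P ∪ B) := by
    intro Q hQ
    have hQB := (mem_powersetCard.1 hQ).1
    exact (equi_prod h hP R Q (fun p hp => hB p (hQB hp)) (hd.mono_right hQB)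
      (fun p hp => hR p (hQB hp))).mono (union_subset_union_right hQB) le_rfl
  have h2 := equi_sum (B.powersetCard n) (fun _ => (1 : ℝ)) _ _ _ h1
  have h3 : ∑ Q ∈ B.powersetCard n, |(1 : ℝ)| * (W * ∏ p ∈ Q, ((R p).card : ℝ)) ≤ W * Wt R n B := by
    unfold Wt
    rw [Finset.mul_sum]
    have e : B.powersetCard n = B.powerset.filter (fun Q => Q.card = n) := by
      ext Q; simp [mem_powersetCard]
    rw [e, Finset.sum_filter]
    apply Finset.sum_le_sum
    intro Q _
    split_ifs with h4 h5 h5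
    · rw [abs_one, one_mul]
    · omega
    · have : 0 ≤ ∏ p ∈ Q, ((R p).card : ℝ) := Finset.prod_nonneg fun p _ => Nat.cast_nonneg _
      exact mul_nonneg hW this
    · rw [mul_zero]
  refine ((h2.mono (Finset.Subset.refl _) h3).congr (fun t => ?_) ?_ rfl rfl)
  · unfold esy
    rw [Finset.mul_sum]
    apply Finset.sum_congr rfl
    intro Q _
    ring
  · unfold esy dens
    rw [Finset.mul_sum]
    apply Finset.sum_congr rfl
    intro Q _
    ring

/-! ### the block sieve -/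

variable (R : ℕ → Finset ℕ) (B : ℕ → Finset ℕ) (b : ℕ → ℕ)

/-- indicator of the sifted set (first `m` blocks) -/
noncomputable def chi (m t : ℕ) : ℝ := ∏ i ∈ range m, ∏ p ∈ B i, (1 - hit R t p)

/-- upper bound function -/
noncomputable def Gf : ℕ → ℕ → ℝ
  | 0, _ => 1
  | m + 1, t => Gf m t * bonS (hit R t) (2 * b m) (B m)

/-- lower bound function -/
noncomputable def Hf : ℕ → ℕ → ℝ
  | 0, _ => 1
  | m + 1, t => Hf m t * bonS (hit R t) (2 * b m) (B m) -
      Gf R B b m t * esy (hit R t) (2 * b m + 1) (B m)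

/-- density of the upper bound function -/
noncomputable def GA : ℕ → ℝ
  | 0 => 1
  | m + 1 => GA m * bonS (dens R) (2 * b m) (B m)

/-- density of the lower bound function -/
noncomputable def HA : ℕ → ℝ
  | 0 => 1
  | m + 1 => HA m * bonS (dens R) (2 * b m) (B m) -
      GA R B b m * esy (dens R) (2 * b m + 1) (B m)

/-- total remainder -/
noncomputable def WW (m : ℕ) : ℝ := ∏ i ∈ range m, Wt R (2 * b i + 1) (B i)

theorem one_le_WW (m : ℕ) : 1 ≤ WW R B b m := by
  unfold WW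
  calc (1 : ℝ) = ∏ _i ∈ range m, (1 : ℝ) := by simp
    _ ≤ _ := Finset.prod_le_prod (fun _ _ => zero_le_one) fun i _ => one_le_Wt _ _ _

theorem chi_nonneg (m t : ℕ) : 0 ≤ chi R B m t := by
  unfold chi
  apply Finset.prod_nonneg
  intro i _
  apply Finset.prod_nonneg
  intro p _
  linarith [hit_le_one R t p]

theorem block_bounds (t k : ℕ) (C : Finset ℕ) :
    ∏ p ∈ C, (1 - hit R t p) ≤ bonS (hit R t) (2 * k) C ∧
    bonS (hit R t) (2 * k) C - esy (hit R t) (2 * k + 1) C ≤ ∏ p ∈ C, (1 - hit R t p) := by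
  have hw : ∀ p ∈ C, 0 ≤ hit R t p ∧ hit R t p ≤ 1 :=
    fun p _ => ⟨hit_nonneg R t p, hit_le_one R t p⟩
  have h1 := bonferroni (hit R t) C hw (2 * k)
  have h2 := bonferroni (hit R t) C hw (2 * k + 1)
  rw [bonS_succ_eq, pow_succ, pow_mul] at h2
  rw [pow_mul] at h1
  norm_num at h1 h2
  constructor <;> linarith

theorem chi_le_Gf (m t : ℕ) : chi R B m t ≤ Gf R B b m t := by
  induction m with
  | zero => simp [chi, Gf]
  | succ m ih =>
    have h1 := (block_bounds R t (b m) (B m)).1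
    have h2 : 0 ≤ ∏ p ∈ B m, (1 - hit R t p) :=
      Finset.prod_nonneg fun p _ => by linarith [hit_le_one R t p]
    have h3 := chi_nonneg R B m t
    have e : chi R B (m + 1) t = chi R B m t * ∏ p ∈ B m, (1 - hit R t p) := by
      unfold chi; rw [Finset.prod_range_succ]
    rw [e, Gf]
    exact mul_le_mul ih h1 h2 (h3.trans ih)

theorem Hf_le_chi (m t : ℕ) : Hf R B b m t ≤ chi R B m t := by
  induction m with
  | zero => simp [chi, Hf]
  | succ m ih =>
    obtain ⟨h1, h1'⟩ := block_bounds R t (b m) (B m)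
    have h2 : 0 ≤ ∏ p ∈ B m, (1 - hit R t p) :=
      Finset.prod_nonneg fun p _ => by linarith [hit_le_one R t p]
    have h3 := chi_nonneg R B m t
    have h4 := chi_le_Gf R B b m t
    have h5 : 0 ≤ esy (hit R t) (2 * b m + 1) (B m) := esy_nonneg _ _ _ fun p _ => hit_nonneg R t p
    have e : chi R B (m + 1) t = chi R B m t * ∏ p ∈ B m, (1 - hit R t p) := by
      unfold chi; rw [Finset.prod_range_succ]
    rw [e, Hf]
    set σ := bonS (hit R t) (2 * b m) (B m) with hσ
    set u := esy (hit R t) (2 * b m + 1) (B m) with hu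
    set c := ∏ p ∈ B m, (1 - hit R t p) with hc
    have h6 : Hf R B b m t * σ ≤ chi R B m t * σ := mul_le_mul_of_nonneg_right ih (h2.trans h1)
    have h7 : chi R B m t * u ≤ Gf R B b m t * u := mul_le_mul_of_nonneg_right h4 h5
    have h8 : chi R B m t * (σ - u) ≤ chi R B m t * c := mul_le_mul_of_nonneg_left h1' h3
    nlinarith

/-- union of the first `m` blocks -/
def PP (m : ℕ) : Finset ℕ := (range m).biUnion B

theorem PP_succ (m : ℕ) : PP B (m + 1) = PP B m ∪ B m := by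
  unfold PP
  rw [Finset.range_add_one, Finset.biUnion_insert, union_comm]

theorem mem_PP {m p : ℕ} : p ∈ PP B m ↔ ∃ i < m, p ∈ B i := by
  unfold PP; simp

theorem disj_PP {m : ℕ} (hdis : ∀ i < m + 1, ∀ j < m + 1, i ≠ j → Disjoint (B i) (B j)) :
    Disjoint (PP B m) (B m) := by
  rw [Finset.disjoint_left]
  intro p hp hp2
  obtain ⟨i, hi, hpi⟩ := (mem_PP B).1 hp
  exact (Finset.disjoint_left.1 (hdis i (by omega) m (by omega) (by omega)) hpi) hp2

theorem equi_Gf (N H m : ℕ) (hB : ∀ i < m, ∀ p ∈ B i, p.Prime)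
    (hdis : ∀ i < m, ∀ j < m, i ≠ j → Disjoint (B i) (B j))
    (hR : ∀ i < m, ∀ p ∈ B i, R p ⊆ range p) :
    Equi N H (Gf R B b m) (GA R B b m) (WW R B b m) (PP B m) := by
  induction m with
  | zero =>
    refine (equi_one N H).congr (fun t => rfl) rfl (by simp [WW]) (by simp [PP])
  | succ m ih =>
    have ih' := ih (fun i hi => hB i (by omega)) (fun i hi j hj => hdis i (by omega) j (by omega))
      (fun i hi => hR i (by omega))
    have hPP : ∀ p ∈ PP B m, p.Prime := by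
      intro p hp
      obtain ⟨i, hi, hpi⟩ := (mem_PP B).1 hp
      exact hB i (by omega) p hpi
    have h1 := equi_bon ih' hPP R (B m) (hB m (by omega)) (disj_PP B hdis) (hR m (by omega))
      (2 * b m)
    have hW : WW R B b m * Wt R (2 * b m) (B m) ≤ WW R B b (m + 1) := by
      unfold WW
      rw [Finset.prod_range_succ]
      apply mul_le_mul_of_nonneg_left (Wt_mono R (by omega) (Finset.Subset.refl _))
      exact zero_le_one.trans (one_le_WW R B b m)
    refine (h1.mono (Finset.Subset.refl _) hW).congr (fun t => rfl) rfl rfl (PP_succ B m).symm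

theorem equi_Hf (N H m : ℕ) (hB : ∀ i < m, ∀ p ∈ B i, p.Prime)
    (hdis : ∀ i < m, ∀ j < m, i ≠ j → Disjoint (B i) (B j))
    (hR : ∀ i < m, ∀ p ∈ B i, R p ⊆ range p) :
    Equi N H (Hf R B b m) (HA R B b m) ((m + 1) * WW R B b m) (PP B m) := by
  induction m with
  | zero =>
    refine (equi_one N H).congr (fun t => rfl) rfl (by simp [WW]) (by simp [PP])
  | succ m ih =>
    have ih' := ih (fun i hi => hB i (by omega)) (fun i hi j hj => hdis i (by omega) j (by omega))
      (fun i hi => hR i (by omega))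
    have hG := equi_Gf R B b N H m (fun i hi => hB i (by omega))
      (fun i hi j hj => hdis i (by omega) j (by omega)) (fun i hi => hR i (by omega))
    have hPP : ∀ p ∈ PP B m, p.Prime := by
      intro p hp
      obtain ⟨i, hi, hpi⟩ := (mem_PP B).1 hp
      exact hB i (by omega) p hpi
    have hW0 : 0 ≤ WW R B b m := zero_le_one.trans (one_le_WW R B b m)
    have h1 := equi_bon ih' hPP R (B m) (hB m (by omega)) (disj_PP B hdis) (hR m (by omega))
      (2 * b m)
    have h2 := equi_esy hG hPP R (B m) (hB m (by omega)) (disj_PP B hdis) (hR m (by omega))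
      hW0 (2 * b m + 1)
    have h3 := equi_sum (univ : Finset (Fin 2)) ![1, -1]
      ![fun t => Hf R B b m t * bonS (hit R t) (2 * b m) (B m),
        fun t => Gf R B b m t * esy (hit R t) (2 * b m + 1) (B m)]
      ![HA R B b m * bonS (dens R) (2 * b m) (B m), GA R B b m * esy (dens R) (2 * b m + 1) (B m)]
      ![((m : ℝ) + 1) * WW R B b m * Wt R (2 * b m) (B m), WW R B b m * Wt R (2 * b m + 1) (B m)]
      (P := PP B m ∪ B m) (N := N) (H := H) (by
        intro i _
        fin_cases i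
        · exact h1
        · exact h2)
    simp only [Fin.sum_univ_two, Matrix.cons_val_zero, Matrix.cons_val_one, abs_one, abs_neg,
      one_mul, neg_mul] at h3
    have hW : ((m : ℝ) + 1) * WW R B b m * Wt R (2 * b m) (B m) +
        WW R B b m * Wt R (2 * b m + 1) (B m) ≤ (((m + 1 : ℕ) : ℝ) + 1) * WW R B b (m + 1) := by
      have e : WW R B b (m + 1) = WW R B b m * Wt R (2 * b m + 1) (B m) := by
        unfold WW; rw [Finset.prod_range_succ]
      rw [e]
      have h4 : Wt R (2 * b m) (B m) ≤ Wt R (2 * b m + 1) (B m) :=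
        Wt_mono R (by omega) (Finset.Subset.refl _)
      have h5 : ((m : ℝ) + 1) * WW R B b m * Wt R (2 * b m) (B m) ≤
          ((m : ℝ) + 1) * WW R B b m * Wt R (2 * b m + 1) (B m) :=
        mul_le_mul_of_nonneg_left h4 (by positivity)
      push_cast
      nlinarith
    refine (h3.mono (Finset.Subset.refl _) hW).congr (fun t => ?_) ?_ rfl (PP_succ B m).symm
    · rw [Hf]; ring
    · rw [HA]; ring

theorem sieve_upper (N H m : ℕ) (hB : ∀ i < m, ∀ p ∈ B i, p.Prime)
    (hdis : ∀ i < m, ∀ j < m, i ≠ j → Disjoint (B i) (B j))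
    (hR : ∀ i < m, ∀ p ∈ B i, R p ⊆ range p) (q r : ℕ) (hq : 0 < q)
    (hpq : ∀ i < m, ∀ p ∈ B i, ¬ p ∣ q) :
    ∑ t ∈ (ivl N H).filter (fun t => t ≡ r [MOD q]), chi R B m t ≤
      H / q * GA R B b m + WW R B b m := by
  have h := equi_Gf R B b N H m hB hdis hR q r hq (by
    intro p hp
    obtain ⟨i, hi, hpi⟩ := (mem_PP B).1 hp
    exact hpq i hi p hpi)
  have h2 : ∑ t ∈ (ivl N H).filter (fun t => t ≡ r [MOD q]), chi R B m t ≤
      ∑ t ∈ (ivl N H).filter (fun t => t ≡ r [MOD q]), Gf R B b m t :=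
    Finset.sum_le_sum fun t _ => chi_le_Gf R B b m t
  have h3 := (abs_le.1 h).2
  linarith

theorem sieve_lower (N H m : ℕ) (hB : ∀ i < m, ∀ p ∈ B i, p.Prime)
    (hdis : ∀ i < m, ∀ j < m, i ≠ j → Disjoint (B i) (B j))
    (hR : ∀ i < m, ∀ p ∈ B i, R p ⊆ range p) :
    H * HA R B b m - (m + 1) * WW R B b m ≤ ∑ t ∈ ivl N H, chi R B m t := by
  have h := equi_Hf R B b N H m hB hdis hR 1 0 one_pos (by
    intro p hp h1
    obtain ⟨i, hi, hpi⟩ := (mem_PP B).1 hp
    exact (hB i hi p hpi).one_lt.ne' (Nat.dvd_one.1 h1))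
  have e : (ivl N H).filter (fun t => t ≡ 0 [MOD 1]) = ivl N H := by
    apply Finset.filter_true_of_mem
    intro t _
    exact Nat.modEq_one
  rw [e] at h
  have h2 : ∑ t ∈ ivl N H, Hf R B b m t ≤ ∑ t ∈ ivl N H, chi R B m t :=
    Finset.sum_le_sum fun t _ => Hf_le_chi R B b m t
  have h3 := (abs_le.1 h).1
  push_cast at h3
  rw [div_one] at h3
  linarith

end Pool.Agent.MP_f32cb9_nt
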