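import Pool.Agent.MP_f32cb9_nt.Level

set_option autoImplicit false

open Finset

namespace Pool.Agent.MP_f32cb9_nt

/-- number of blocks -/
noncomputable def mm (a : ℝ) (E : ℕ) : ℕ := ⌈(E : ℝ) ^ (1 / a)⌉₊

theorem ee_mm {a : ℝ} (ha : 1 < a) (E : ℕ) : ee a E (mm a E) ≤ 2 := by
  unfold ee
  have h0 : (0 : ℝ) ≤ (E : ℝ) ^ (1 / a) := by positivity
  have h1 : (E : ℝ) ^ (1 / a) ≤ (mm a E : ℝ) + 1 := by
    have := Nat.le_ceil ((E : ℝ) ^ (1 / a))
    unfold mm
    linarith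
  have h2 : (E : ℝ) ≤ ((mm a E : ℝ) + 1) ^ a := by
    have h3 := Real.rpow_le_rpow h0 h1 (by linarith : (0 : ℝ) ≤ a)
    rwa [← Real.rpow_mul (by positivity), one_div_mul_cancel (by linarith), Real.rpow_one] at h3
  have h3 : (0 : ℝ) < ((mm a E : ℝ) + 1) ^ a := by positivity
  have h4 : (E : ℝ) / ((mm a E : ℝ) + 1) ^ a ≤ 1 := by rw [div_le_one h3]; exact h2
  have h5 : ⌊(E : ℝ) / ((mm a E : ℝ) + 1) ^ a⌋₊ ≤ 1 := by
    have := Nat.floor_le_floor h4
    rwa [Nat.floor_one] at this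
  omega

/-- the sieve density -/
noncomputable def V (a : ℝ) (E g k M : ℕ) : ℝ := VV (RR a E k M) (BB a E g) (mm a E)

theorem V_ge {a : ℝ} {E g k M : ℕ} (h : Par a g k M) :
    Real.exp (-(6 * (mm a E : ℝ))) ≤ V a E g k M := by
  unfold V VV
  have h1 : ∏ _i ∈ range (mm a E), Real.exp (-6) ≤
      ∏ i ∈ range (mm a E), Vb (RR a E k M) (BB a E g) i :=
    Finset.prod_le_prod (fun _ _ => (Real.exp_pos _).le) fun i _ => Vb_ge h i
  refine le_trans (le_of_eq ?_) h1
  rw [Finset.prod_const, card_range, ← Real.exp_nat_mul]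
  congr 1; ring

theorem V_pos {a : ℝ} {E g k M : ℕ} (h : Par a g k M) : 0 < V a E g k M :=
  lt_of_lt_of_le (Real.exp_pos _) (V_ge h)

/-- the size of the interval -/
def XX (K E : ℕ) : ℕ := 2 ^ (K * E)

/-- conditions on the size of `E` -/
structure Big (a : ℝ) (g k M K E : ℕ) : Prop where
  lvl : 32 * ∑' i, lev a i ≤ K
  c1 : ((mm a E : ℝ) + 1) * (2 : ℝ) ^ (((K * E : ℕ) : ℝ) / 8) ≤
    (1 / 6) * (XX K E : ℝ) * Real.exp (-(6 * (mm a E : ℝ)))
  c2 : (2 : ℝ) ^ (((K * E : ℕ) : ℝ) / 8) ≤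
    (2 : ℝ) ^ (((K * E : ℕ) : ℝ) / 5) * Real.exp (-(6 * (mm a E : ℝ)))
  c3 : 2 * (k : ℝ) * ((K * E : ℕ) : ℝ) ≤ (2 : ℝ) ^ ((E : ℝ) / (k : ℝ) ^ a)

theorem WW_le' {a : ℝ} {E g k M K : ℕ} (h : Par a g k M) (hb : Big a g k M K E) (m : ℕ) :
    WW (RR a E k M) (BB a E g) bb m ≤ (2 : ℝ) ^ (((K * E : ℕ) : ℝ) / 8) := by
  refine (WW_le h m).trans ?_
  apply Real.rpow_le_rpow_of_exponent_le (by norm_num)
  have h1 := hb.lvl
  have hE : (0 : ℝ) ≤ E := Nat.cast_nonneg _
  push_cast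
  nlinarith [mul_le_mul_of_nonneg_left h1 hE]

theorem blocks_prime (a : ℝ) (E g m : ℕ) : ∀ i < m, ∀ p ∈ BB a E g i, p.Prime :=
  fun _ _ _ hp => (mem_BB.1 hp).2.2.2

theorem lower {a : ℝ} {E g k M K : ℕ} (h : Par a g k M) (hb : Big a g k M K E) :
    (1 / 3) * (XX K E : ℝ) * V a E g k M ≤
      ∑ t ∈ ivl (XX K E) (XX K E), chi (RR a E k M) (BB a E g) (mm a E) t := by
  have h1 := sieve_lower (RR a E k M) (BB a E g) bb (XX K E) (XX K E) (mm a E)
    (blocks_prime a E g _) (fun i _ j _ hij => BB_disj (by linarith [h.a1]) hij)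
    (fun i _ p _ => RR_subset _ _ _ _ _)
  have hd : ∀ i < mm a E, ∀ p ∈ BB a E g i, 0 ≤ dens (RR a E k M) p ∧ dens (RR a E k M) p ≤ 1 :=
    fun i _ p hp => ⟨(dens_bounds h hp).1, by linarith [(dens_bounds h hp).2]⟩
  have h2 := HA_ge (RR a E k M) (BB a E g) bb eps eps_nonneg (mm a E) (sum_eps _) hd
    (fun i _ => esy_small h i)
  have h3 := WW_le' h hb (mm a E)
  have h4 := sum_eps (mm a E)
  have hV := V_pos (E := E) h
  have hV2 := V_ge (E := E) h
  have hX : (0 : ℝ) < XX K E := by unfold XX; positivity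
  have h5 : (1 / 2) * V a E g k M ≤ HA (RR a E k M) (BB a E g) bb (mm a E) := by
    refine le_trans ?_ h2
    apply mul_le_mul_of_nonneg_right _ hV.le
    linarith
  have h6 : ((mm a E : ℝ) + 1) * WW (RR a E k M) (BB a E g) bb (mm a E) ≤
      (1 / 6) * (XX K E : ℝ) * V a E g k M := by
    calc _ ≤ ((mm a E : ℝ) + 1) * (2 : ℝ) ^ (((K * E : ℕ) : ℝ) / 8) := by gcongr
      _ ≤ _ := hb.c1
      _ ≤ _ := by gcongr
  have h7 := mul_le_mul_of_nonneg_left h5 hX.le
  linarith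

theorem one_sub_sum_le {ι : Type*} (T : Finset ι) (x : ι → ℝ)
    (hx : ∀ i ∈ T, 0 ≤ x i ∧ x i ≤ 1) : 1 - ∑ i ∈ T, x i ≤ ∏ i ∈ T, (1 - x i) := by
  classical
  induction T using Finset.induction_on with
  | empty => simp
  | insert j T hj ih =>
    have ih' := ih fun i hi => hx i (mem_insert_of_mem hi)
    obtain ⟨h1, h2⟩ := hx j (mem_insert_self _ _)
    rw [Finset.sum_insert hj, Finset.prod_insert hj]
    have h3 : ∏ i ∈ T, (1 - x i) ≤ 1 := by
      apply Finset.prod_le_one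
      · intro i hi; linarith [(hx i (mem_insert_of_mem hi)).2]
      · intro i hi; linarith [(hx i (mem_insert_of_mem hi)).1]
    nlinarith

theorem two_pow_card_primeFactors_le {d : ℕ} (hd : d ≠ 0) : 2 ^ d.primeFactors.card ≤ d := by
  calc 2 ^ d.primeFactors.card = ∏ _p ∈ d.primeFactors, 2 := by rw [Finset.prod_const]
    _ ≤ ∏ p ∈ d.primeFactors, p :=
        Finset.prod_le_prod' fun p hp => (Nat.prime_of_mem_primeFactors hp).two_le
    _ ≤ d := Nat.le_of_dvd (Nat.pos_of_ne_zero hd) (Nat.prod_primeFactors_dvd d)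

/-- all prime factors of `d` exceed `z` -/
def Rough (z d : ℕ) : Prop := ∀ p, p.Prime → p ∣ d → z < p

theorem ee_k {a : ℝ} (ha : 0 ≤ a) {E k j : ℕ} (hj : j ∈ Ico 1 k) :
    (E : ℝ) / (k : ℝ) ^ a ≤ ee a E (j - 1) := by
  rw [mem_Ico] at hj
  have h1 := ee_ge a E (j - 1)
  have hk : ((j - 1 : ℕ) : ℝ) + 1 ≤ k := by
    have : j - 1 + 1 ≤ k := by omega
    exact_mod_cast this
  refine le_trans ?_ h1
  apply div_le_div_of_nonneg_left (by positivity) (by positivity)
  exact Real.rpow_le_rpow (by positivity) hk ha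

theorem upper {a : ℝ} {E g k M K : ℕ} (h : Par a g k M) (hb : Big a g k M K E) {j : ℕ}
    (hj : j ∈ Ico 1 k) {d : ℕ} (hd0 : 0 < d) (hd : Rough (2 ^ ee a E (j - 1)) d)
    (hdX : (d : ℝ) ≤ (2 : ℝ) ^ (4 * ((K * E : ℕ) : ℝ) / 5)) (r : ℕ) :
    ∑ t ∈ (ivl (XX K E) (XX K E)).filter (fun t => t ≡ r [MOD d]),
      chi (RR a E k M) (BB a E g) (mm a E) t ≤ 4 * (XX K E : ℝ) * V a E g k M / d := by
  classical
  have ha : 0 ≤ a := by linarith [h.a1]
  set R := RR a E k M with hR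
  set m := mm a E with hm
  set B' : ℕ → Finset ℕ := fun i => (BB a E g i).filter (fun p => ¬ p ∣ d) with hB'
  have hsub : ∀ i, B' i ⊆ BB a E g i := fun i => Finset.filter_subset _ _
  have hdens : ∀ i, ∀ p ∈ BB a E g i, 0 ≤ dens R p ∧ dens R p ≤ 1 :=
    fun i p hp => ⟨(dens_bounds h hp).1, by linarith [(dens_bounds h hp).2]⟩
  have h1 := sieve_upper R B' bb (XX K E) (XX K E) m
    (fun i hi p hp => blocks_prime a E g m i hi p (hsub i hp))
    (fun i _ j _ hij => (BB_disj ha hij).mono (hsub i) (hsub j))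
    (fun i _ p _ => RR_subset _ _ _ _ _) d r hd0 (fun i _ p hp => (Finset.mem_filter.1 hp).2)
  have h2 : ∑ t ∈ (ivl (XX K E) (XX K E)).filter (fun t => t ≡ r [MOD d]),
      chi R (BB a E g) m t ≤ ∑ t ∈ (ivl (XX K E) (XX K E)).filter (fun t => t ≡ r [MOD d]),
      chi R B' m t := by
    apply Finset.sum_le_sum
    intro t _
    unfold chi
    apply Finset.prod_le_prod
    · intro i _
      exact Finset.prod_nonneg fun p _ => by linarith [hit_le_one R t p]
    · intro i _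
      rw [← Finset.prod_filter_mul_prod_filter_not (BB a E g i) (fun p => ¬ p ∣ d)]
      have h3 : 0 ≤ ∏ p ∈ (BB a E g i).filter (fun p => ¬ p ∣ d), (1 - hit R t p) :=
        Finset.prod_nonneg fun p _ => by linarith [hit_le_one R t p]
      have h4 : ∏ p ∈ (BB a E g i).filter (fun p => ¬ ¬ p ∣ d), (1 - hit R t p) ≤ 1 := by
        apply Finset.prod_le_one
        · intro p _; linarith [hit_le_one R t p]
        · intro p _; linarith [hit_nonneg R t p]
      exact mul_le_of_le_one_right h3 h4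
  -- density of the reduced blocks
  have hVb : ∀ i, Vb R (BB a E g) i ≤ Vb R B' i := by
    intro i
    unfold Vb
    rw [← Finset.prod_filter_mul_prod_filter_not (BB a E g i) (fun p => ¬ p ∣ d)]
    have h3 : 0 ≤ ∏ p ∈ (BB a E g i).filter (fun p => ¬ p ∣ d), (1 - dens R p) :=
      Finset.prod_nonneg fun p hp => by linarith [(hdens i p (Finset.mem_filter.1 hp).1).2]
    apply mul_le_of_le_one_right h3
    apply Finset.prod_le_one
    · intro p hp; linarith [(hdens i p (Finset.mem_filter.1 hp).1).2]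
    · intro p hp; linarith [(hdens i p (Finset.mem_filter.1 hp).1).1]
  have hesy : ∀ i < m, esy (dens R) (2 * bb i + 1) (B' i) ≤ eps i * Vb R B' i := by
    intro i _
    have h3 : esy (dens R) (2 * bb i + 1) (B' i) ≤ esy (dens R) (2 * bb i + 1) (BB a E g i) := by
      unfold esy
      apply Finset.sum_le_sum_of_subset_of_nonneg
      · exact Finset.powersetCard_mono (hsub i)
      · intro Q hQ _
        exact Finset.prod_nonneg fun p hp => (hdens i p ((mem_powersetCard.1 hQ).1 hp)).1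
    refine h3.trans ((esy_small h i).trans ?_)
    exact mul_le_mul_of_nonneg_left (hVb i) (eps_nonneg i)
  obtain ⟨_, h5⟩ := GA_le R B' bb eps m (fun i _ p hp => hdens i p (hsub i hp)) hesy
  have hVV' : 0 ≤ VV R B' m := VV_nonneg R B' m (fun i _ p hp => hdens i p (hsub i hp))
  have hexp : Real.exp (∑ i ∈ range m, eps i) ≤ 4 / 3 := by
    have h4 : Real.exp (∑ i ∈ range m, eps i) ≤ Real.exp (1 / 4) := Real.exp_le_exp.2 (sum_eps m)
    have h5 : Real.exp (1 / 4) ≤ 1 / (1 - 1 / 4) :=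
      Real.exp_bound_div_one_sub_of_interval (by norm_num) (by norm_num)
    linarith [show (1 : ℝ) / (1 - 1 / 4) = 4 / 3 by norm_num]
  -- the removed primes
  set T : Finset ℕ := (PP (BB a E g) m).filter (fun p => p ∣ d) with hT
  have hTprime : ∀ p ∈ T, p ∈ d.primeFactors := by
    intro p hp
    obtain ⟨hp1, hp2⟩ := Finset.mem_filter.1 hp
    obtain ⟨i, hi, hpi⟩ := (mem_PP _).1 hp1
    exact Nat.mem_primeFactors.2 ⟨(mem_BB.1 hpi).2.2.2, hp2, hd0.ne'⟩
  have hsplit : VV R (BB a E g) m = VV R B' m * ∏ p ∈ T, (1 - dens R p) := by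
    have e1 : ∏ p ∈ T, (1 - dens R p) =
        ∏ i ∈ range m, ∏ p ∈ (BB a E g i).filter (fun p => ¬ ¬ p ∣ d), (1 - dens R p) := by
      have e2 : T = (range m).biUnion (fun i => (BB a E g i).filter (fun p => ¬ ¬ p ∣ d)) := by
        ext p
        simp only [hT, Finset.mem_filter, mem_PP, mem_biUnion, mem_range, not_not]
        constructor
        · rintro ⟨⟨i, hi, hpi⟩, hpd⟩; exact ⟨i, hi, hpi, hpd⟩
        · rintro ⟨i, hi, hpi, hpd⟩; exact ⟨⟨i, hi, hpi⟩, hpd⟩
      rw [e2, Finset.prod_biUnion]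
      intro i _ i' _ hii
      exact (BB_disj ha hii).mono (Finset.filter_subset _ _) (Finset.filter_subset _ _)
    rw [e1]
    unfold VV Vb
    rw [← Finset.prod_mul_distrib]
    apply Finset.prod_congr rfl
    intro i _
    rw [← Finset.prod_filter_mul_prod_filter_not (BB a E g i) (fun p => ¬ p ∣ d)]
  have hTsum : ∑ p ∈ T, dens R p ≤ 1 / 2 := by
    have hz : (0 : ℝ) < (2 : ℝ) ^ ((E : ℝ) / (k : ℝ) ^ a) := by positivity
    have h6 : ∀ p ∈ T, dens R p ≤ k / (2 : ℝ) ^ ((E : ℝ) / (k : ℝ) ^ a) := by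
      intro p hp
      have hpf := hTprime p hp
      obtain ⟨hp1, hp2⟩ := Finset.mem_filter.1 hp
      obtain ⟨i, hi, hpi⟩ := (mem_PP _).1 hp1
      have hpi' := mem_BB.1 hpi
      have hc := RR_card (k := k) (M := M) ha hpi (h.M0 p hpi'.2.2.2 hpi'.2.1)
      have hzp := hd p hpi'.2.2.2 hp2
      unfold dens
      apply div_le_div₀ (Nat.cast_nonneg _) _ hz
      · have h7 : (2 : ℝ) ^ ((E : ℝ) / (k : ℝ) ^ a) ≤ (2 : ℝ) ^ ((ee a E (j - 1) : ℕ) : ℝ) :=
          Real.rpow_le_rpow_of_exponent_le (by norm_num) (ee_k ha hj)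
        rw [Real.rpow_natCast] at h7
        have h8 : ((2 ^ ee a E (j - 1) : ℕ) : ℝ) ≤ p := by exact_mod_cast hzp.le
        push_cast at h8
        linarith
      · exact_mod_cast hc.trans (min_le_right _ _)
    have h7 : (T.card : ℝ) ≤ ((K * E : ℕ) : ℝ) := by
      have h8 : T.card ≤ d.primeFactors.card := Finset.card_le_card hTprime
      have h9 := two_pow_card_primeFactors_le hd0.ne'
      have h10 : (2 : ℝ) ^ ((d.primeFactors.card : ℕ) : ℝ) ≤ (2 : ℝ) ^ (4 * ((K * E : ℕ) : ℝ) / 5) := by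
        rw [Real.rpow_natCast]
        refine le_trans ?_ hdX
        exact_mod_cast h9
      have h11 := (Real.rpow_le_rpow_left_iff (by norm_num : (1 : ℝ) < 2)).1 h10
      have h12 : (T.card : ℝ) ≤ d.primeFactors.card := by exact_mod_cast h8
      have h13 : (0 : ℝ) ≤ ((K * E : ℕ) : ℝ) := Nat.cast_nonneg _
      linarith
    refine (Finset.sum_le_sum h6).trans ?_
    rw [Finset.sum_const, nsmul_eq_mul, mul_div_assoc', div_le_iff₀ hz]
    have h8 := hb.c3
    have hk0 : (0 : ℝ) ≤ k := Nat.cast_nonneg _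
    nlinarith [mul_le_mul_of_nonneg_right h7 hk0]
  have hTprod : 1 / 2 ≤ ∏ p ∈ T, (1 - dens R p) := by
    have h6 := one_sub_sum_le T (dens R) (by
      intro p hp
      obtain ⟨hp1, _⟩ := Finset.mem_filter.1 hp
      obtain ⟨i, _, hpi⟩ := (mem_PP _).1 hp1
      exact hdens i p hpi)
    linarith
  have hVV2 : VV R B' m ≤ 2 * V a E g k M := by
    have e : V a E g k M = VV R (BB a E g) m := rfl
    rw [e, hsplit]
    nlinarith [mul_le_mul_of_nonneg_left hTprod hVV']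
  have hVpos := V_pos (E := E) h
  have hVge := V_ge (E := E) h
  have hX : (0 : ℝ) < XX K E := by unfold XX; positivity
  have hd0' : (0 : ℝ) < d := by exact_mod_cast hd0
  have hG : GA R B' bb m ≤ (8 / 3) * V a E g k M := by
    calc GA R B' bb m ≤ Real.exp (∑ i ∈ range m, eps i) * VV R B' m := h5
      _ ≤ (4 / 3) * (2 * V a E g k M) := by gcongr
      _ = _ := by ring
  have hW : WW R B' bb m ≤ (XX K E : ℝ) / d * V a E g k M := by
    have h6 : WW R B' bb m ≤ WW R (BB a E g) bb m := by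
      unfold WW
      exact Finset.prod_le_prod (fun i _ => Wt_nonneg _ _ _) fun i _ => Wt_mono R le_rfl (hsub i)
    have h7 := WW_le' h hb m
    have h8 : (2 : ℝ) ^ (((K * E : ℕ) : ℝ) / 5) ≤ (XX K E : ℝ) / d := by
      rw [le_div_iff₀ hd0']
      have e : (XX K E : ℝ) = (2 : ℝ) ^ (((K * E : ℕ) : ℝ) / 5) * (2 : ℝ) ^ (4 * ((K * E : ℕ) : ℝ) / 5) := by
        rw [← Real.rpow_add (by norm_num)]
        have e2 : ((K * E : ℕ) : ℝ) / 5 + 4 * ((K * E : ℕ) : ℝ) / 5 = ((K * E : ℕ) : ℝ) := by ring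
        rw [e2, Real.rpow_natCast]
        unfold XX; push_cast; rfl
      rw [e]
      exact mul_le_mul_of_nonneg_left hdX (by positivity)
    calc WW R B' bb m ≤ _ := h6
      _ ≤ _ := h7
      _ ≤ _ := hb.c2
      _ ≤ (XX K E : ℝ) / d * V a E g k M := by
        apply mul_le_mul h8 hVge (Real.exp_pos _).le (by positivity)
  have hfin : (XX K E : ℝ) / d * GA R B' bb m ≤ (XX K E : ℝ) / d * ((8 / 3) * V a E g k M) :=
    mul_le_mul_of_nonneg_left hG (by positivity)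
  have e : 4 * (XX K E : ℝ) * V a E g k M / d = (XX K E : ℝ) / d * (4 * V a E g k M) := by ring
  rw [e]
  have hnn : 0 ≤ (XX K E : ℝ) / d * V a E g k M := by positivity
  nlinarith

end Pool.Agent.MP_f32cb9_nt
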